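import Pool.Agent.Lib.MP_5290c5_lc.NL.Tree

/-!
Building a copy from an enumeration of the family, and reading the family off a copy.
-/

namespace Pool.Agent.Lib.MP_5290c5_lc.NL

open Pool.Agent.Shared.Oracle Encodable Nat.Partrec

attribute [local irreducible] Computable

theorem build {V : ℕ → Set ℕ → Prop} {β : ℕ → ℕ → ℕ} {a : ℕ} (ha : InO a)
    (hβ : ∀ n m, IsB (β n m) ∧ KLe (β n m) a) (hβ' : Computable fun p : ℕ × ℕ => β p.1 p.2)
    {X : ℕ → Bool} {F : En → Set ℕ} (hF : ∀ x, V x.1 (F x))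
    (hF' : ∀ n F₀, V n F₀ → {x | x.1 = n ∧ F x = F₀}.Infinite)
    {Q : En × ℕ → (ℕ → Bool) → Prop} (hQ : Sig Q)
    (eQ : ∀ x m, Q (x, m) (H X (2 ^ β x.1 m)) ↔ m ∉ F x) :
    ∃ real ty, Hom V β real ty ∧ Cop (TG real) X := by
  classical
  obtain ⟨g, hg, eg⟩ := hQ.nf₂
  have e1 : ∀ x m, m ∉ F x ↔ ∃ u, jump (H X (β x.1 m)) (g ((x, m), u)) = false := fun x m => by
    rw [← eQ, H_succ _ ((hβ _ _).2.left ha), eg]
  obtain ⟨e₀, -, he₀⟩ := (Sig.dec (α := Unit) (p := fun _ => 0 = 1) (by fun_prop)).index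
  have e2 : ∀ A, jump A (e₀ ()) = false := fun A => by simpa using he₀ () A
  obtain ⟨t, ht, et⟩ := exists_tree
  obtain ⟨st, hst, st2, st3⟩ := exists_st (f := fun x r => (β r.1 x.1,
    if x.2.2.1 = (β r.1 x.1, 0) then g ((r, x.1), x.2.1) else e₀ ())) (by fun_prop)
  let d : En := (0, 0, (0, 0), 0)
  let pc : List En → ℕ × ℕ := fun s =>
    if s.length = 2 then (β (s.getD 1 d).1 (s.getD 0 d).1, 1) else (s.getD 1 d).2.2.1
  let good : List En → Prop := fun s => s.length ≤ 1 ∨ ((KLe (pc s).1 a ∧ IsB (pc s).1 ∧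
    WLt (s.getD 0 d).2.2.1 (pc s)) ∧ jump (jump X) (t (st s)) = false)
  let real : List En → Prop := fun s => ∀ j < s.length, good (s.drop j)
  have hr : ∀ x s, real (x :: s) ↔ good (x :: s) ∧ real s := fun x s => Nat.forall_lt_succ_left
  let T : List En → List ℕ → Prop := fun s p => jump (jump X) (t ((st s).1, (st s).2.1, p)) = false
  let sp : List En → ℕ × ℕ → Prop := fun s v => WLe v (s.getD 0 d).2.2.1 ∧ Ge (T s) v (st s).2.2 ∧
    (v = (s.getD 0 d).2.2.1 ∨ ¬ Ge (T s) (v.1, v.2 + 1) (st s).2.2)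
  let ty : List En → Ty := fun s => match s with
    | [] => .top
    | [r] => .root r.1 (F r)
    | x :: y :: s => .node x.1 (Classical.epsilon (sp (x :: y :: s)))
  have h0 : real [] := fun j hj => by simp at hj
  have h1 : ∀ x y s, real (x :: y :: s) → (KLe (pc (x :: y :: s)).1 a ∧ IsB (pc (x :: y :: s)).1 ∧
      WLt x.2.2.1 (pc (x :: y :: s))) ∧ T (x :: y :: s) (st (x :: y :: s)).2.2 := fun x y s h =>
    ((hr _ _).1 h).1.resolve_left (by simp)
  have h2 : ∀ x y s, real (x :: y :: s) → sp (x :: y :: s) (Classical.epsilon (sp (x :: y :: s))) :=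
    fun x y s h => let ⟨⟨a1, a2, a3⟩, a4⟩ := h1 x y s h
      Classical.epsilon_spec (exists_max a4 (a3.kle.trans a1) (a3.isB a2))
  have h3 : ∀ x y s, real (y :: s) → KLe (pc (x :: y :: s)).1 a → IsB (pc (x :: y :: s)).1 →
      WLt x.2.2.1 (pc (x :: y :: s)) → Ge (T (x :: y :: s)) x.2.2.1 (st (x :: y :: s)).2.2 →
      real (x :: y :: s) ∧ ty (x :: y :: s) = .node x.1 x.2.2.1 := by
    intro x y s a0 a1 a2 a3 a4
    have a5 := (hr _ _).2 ⟨Or.inr ⟨⟨a1, a2, a3⟩, (ge_iff.1 a4).1⟩, a0⟩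
    obtain ⟨b1, -, b2⟩ := h2 x y s a5
    refine ⟨a5, congrArg _ (b2.elim id fun b2 => b1.resolve_right fun b1 => ?_)⟩
    exact b2 (a4.mono b1.succ_le)
  have h4 : ∀ (f : ℕ → En) (S : Set En), (∀ μ, (f μ).2.2.2 = μ) → (∀ μ, f μ ∈ S) → S.Infinite :=
    fun f S a1 a2 => Set.infinite_of_injective_forall_mem
      (fun μ μ' e => by rw [← a1 μ, e, a1]) a2
  have h5 : ∀ x r w, jump (H X (st [x, r]).1) (st [x, r]).2.1 = false →
      Ge (T [x, r]) w (st [x, r]).2.2 := by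
    intro x r w h
    obtain ⟨S, a1, a2⟩ := (et X _ (st2 x r ▸ (hβ _ _).1) (st2 x r ▸ (hβ _ _).2.left ha) _).2.1 h
    exact ge_of_closed a2 w _ (st2 x r ▸ a1)
  refine ⟨real, ty, ⟨h0, rfl, fun h => ((hr _ _).1 h).2, ?_, ?_, ?_, ?_⟩,
    cop_of_real h0 (fun _ _ h => ((hr _ _).1 h).2) ?_⟩
  · rintro x (_ | ⟨y, _ | ⟨z, s⟩⟩) h
    · exact .root (hF x)
    · obtain ⟨a1, a2, -⟩ := h2 _ _ _ h
      have a3 : WLe x.2.2.1 (β y.1 x.1, 0) :=
        WLt.le_of_succ (w := (β y.1 x.1, 0)) (h1 _ _ _ h).1.2.2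
      rcases a1.trans a3 with a4 | a4
      · have a5 : x.2.2.1 = (β y.1 x.1, 0) :=
          a3.resolve_right fun a5 => WLt.irrefl (a4 ▸ a1.trans_lt a5)
        simp only [ty, a4]
        simp only [a4, T, st2, a5, if_true] at a2
        exact .high ((e1 _ _).2 ⟨_, (et X _ (hβ _ _).1 ((hβ _ _).2.left ha) _).2.2 a2⟩)
      · exact .low a4
    · obtain ⟨a1, a2, -⟩ := h2 _ _ _ h
      have h' := ((hr _ _).1 h).2
      obtain ⟨b1, b2, b3⟩ := h2 _ _ _ h'
      obtain ⟨c1, c2, c3⟩ := (h1 _ _ _ h).1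
      replace c3 : WLt x.2.2.1 y.2.2.1 := c3
      refine .node (b3.elim (fun b3 => b3 ▸ a1.trans_lt c3) fun b3 => ?_)
      have a3 := a1.trans_lt c3
      refine (wle_total (b1.elim (fun e => e ▸ c1) fun e => e.kle.trans c1) (a3.kle.trans c1)
        (b1.elim (fun e => e ▸ c2) fun e => e.isB c2) (a3.isB c2)).resolve_left fun a4 => b3 ?_
      simp only [T, st3] at a2
      exact ge_iff.2 ⟨(ge_iff.1 b2).1, fun u hu => ⟨_, a2.mono (hu.le_of_succ.trans a4)⟩⟩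
  · rintro x (_ | ⟨y, s⟩) - <;> rfl
  · rintro (_ | ⟨y, _ | ⟨z, s⟩⟩) τ h hτ
    · cases hτ with
      | root a1 =>
        refine (hF' _ _ a1).mono ?_
        rintro x ⟨rfl, rfl⟩
        exact ⟨(hr _ _).2 ⟨Or.inl le_rfl, h0⟩, rfl⟩
    · cases hτ with
      | @low _ m _ v a1 =>
        refine h4 (fun μ => (m, 0, v, μ)) _ (fun _ => rfl) fun μ => h3 _ _ _ h (hβ _ _).2 (hβ _ _).1
          (a1.trans (wlt_succ _)) (h5 _ _ _ ?_)
        have : v ≠ (β y.1 m, 0) := fun e => WLt.irrefl (e ▸ a1)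
        simp only [st2, this, if_false, e2]
      | @high _ m _ a1 =>
        obtain ⟨u, hu⟩ := (e1 _ _).1 a1
        refine h4 (fun μ => (m, u, (β y.1 m, 0), μ)) _ (fun _ => rfl) fun μ => h3 _ _ _ h (hβ _ _).2
          (hβ _ _).1 (wlt_succ (β y.1 m, 0)) (h5 _ _ _ ?_)
        simp only [st2, if_true, hu]
    · cases hτ with
      | @node _ m _ v a1 =>
        obtain ⟨b1, b2, -⟩ := h2 _ _ _ h
        obtain ⟨c1, c2, c3⟩ := (h1 _ _ _ h).1
        obtain ⟨u, hu⟩ := (ge_iff.1 b2).2 v a1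
        refine h4 (fun μ => (m, u, v, μ)) _ (fun _ => rfl) fun μ => h3 _ _ _ h (c3.kle.trans c1)
          (c3.isB c2) (a1.trans_le b1) ?_
        simpa only [T, st3] using hu
  · refine Set.infinite_of_injective_forall_mem (f := fun μ : ℕ => [(0, 0, (0, 0), μ), d])
      (fun μ μ' e => by simpa using e) fun μ h => ?_
    obtain ⟨-, a1, a2⟩ := (h1 _ _ _ h).1
    simpa using (a2.isB a1).two_le
  · refine SigIn.congr (p := fun s : List En => ∃ j, j < s.length ∧ 1 < (s.drop j).length ∧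
      (¬ (KLe (pc (s.drop j)).1 a ∧ IsB (pc (s.drop j)).1 ∧ WLt ((s.drop j).getD 0 d).2.2.1
        (pc (s.drop j))) ∨ jump (jump X) (t (st (s.drop j))) = true)) ?_ fun s => ?_
    · refine SigIn.ex (SigIn.and (SigIn.dec (by fun_prop)) (SigIn.and (SigIn.dec (by fun_prop))
        (SigIn.or ?_ ((Sig.jmp (by fun_prop)).sigIn _))))
      exact (SigIn.of_re (re_rw ha)).neg_jump.comp (f := fun x : List En × ℕ =>
        (((x.1.drop x.2).getD 0 d).2.2.1, pc (x.1.drop x.2))) (by unfold pc; fun_prop)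
    · simp only [real, good, not_forall, not_or, not_le, exists_prop, not_and_or (b := _ = false),
        Bool.not_eq_false]

theorem decode {V : ℕ → Set ℕ → Prop} {β : ℕ → ℕ → ℕ} {real : List En → Prop} {ty : List En → Ty} {a : ℕ}
    (h : Hom V β real ty) (ha : InO a) (hβ : ∀ n m, IsB (β n m) ∧ KLe (β n m) a)
    (hβ' : Computable fun p : ℕ × ℕ => β p.1 p.2) (hV : ∀ n, ∃ F, V n F)
    (hU : ∀ n F G, V n F → V n G → V n (F ∪ G)) (ν : TG real ≃ ℕ) :
    ∃ U : ℕ → Set ℕ, (∀ n, V n (U n)) ∧ ∃ Q : ℕ × ℕ → (ℕ → Bool) → Prop, Sig Q ∧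
      ∀ n m, Q (n, m) (H (diagram ν) (2 ^ β n m)) ↔ m ∉ U n := by
  classical
  set Y := diagram ν
  let el : ℕ → List En →₀ ℚ := fun i => ν.symm i
  have hel : ∀ g ∈ TG real, ∃ i, el i = g := fun g hg => ⟨ν ⟨g, hg⟩, by simp [el]⟩
  have r2 : Red Y (H Y 2) := by simpa using red_H Y inO_two inO_two.one_le
  have r4 : Red (H Y 2) (H Y 4) := red_H Y inO_four inO_two.lt_succ.le
  have add : SigIn Y fun x : ℕ × ℕ × ℕ => el x.1 + el x.2.1 = el x.2.2 :=
    (sigIn_add ν).congr fun x => Subtype.ext_iff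
  have mul : SigIn Y fun x : ℕ × ℕ × ℕ => x.1 • el x.2.1 = el x.2.2 :=
    (sigIn_mul ν).congr fun x => Subtype.ext_iff
  have ndv : SigIn (H Y 2) fun x : ℕ × ℕ => ¬ Dv (TG real) x.1 (el x.2) := by
    rw [H_two]
    refine (SigIn.ex (p := fun (x : ℕ × ℕ) k => ¬ ∃ j, x.1 ^ k • el j = el x.2)
      (SigIn.ex (p := fun (x : (ℕ × ℕ) × ℕ) j => x.1.1 ^ x.2 • el j = el x.1.2)
        (mul.comp (f := fun y : ((ℕ × ℕ) × ℕ) × ℕ => (y.1.1.1 ^ y.1.2, y.2, y.1.1.2))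
          (by fun_prop))).neg_jump).congr fun x => ?_
    rw [Dv, not_forall]
    refine exists_congr fun k => not_congr ⟨fun ⟨j, hj⟩ => ⟨_, (ν.symm j).2, hj⟩, ?_⟩
    rintro ⟨g, h1, h2⟩
    obtain ⟨j, rfl⟩ := hel g h1
    exact ⟨j, h2⟩
  have dv : SigIn (H Y 4) fun x : ℕ × ℕ => Dv (TG real) x.1 (el x.2) := by
    rw [H_four, ← H_two Y]
    exact ndv.neg_jump.congr fun x => not_not
  have lk : SigIn (H Y 4) fun x : ℕ × ℕ × ℕ × ℕ =>
      Dv (TG real) (fp true x.1) (x.2.1 • el x.2.2.1 + el x.2.2.2) := by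
    refine (SigIn.ex (p := fun (x : ℕ × ℕ × ℕ × ℕ) (y : ℕ × ℕ) => x.2.1 • el x.2.2.1 = el y.1 ∧
      el y.1 + el x.2.2.2 = el y.2 ∧ Dv (TG real) (fp true x.1) (el y.2))
      (SigIn.and (((mul.red r2).red r4).comp (f := fun z : (ℕ × ℕ × ℕ × ℕ) × ℕ × ℕ =>
        (z.1.2.1, z.1.2.2.1, z.2.1)) (by fun_prop)) (SigIn.and (((add.red r2).red r4).comp
        (f := fun z : (ℕ × ℕ × ℕ × ℕ) × ℕ × ℕ => (z.2.1, z.1.2.2.2, z.2.2)) (by fun_prop))
        (dv.comp (f := fun z : (ℕ × ℕ × ℕ × ℕ) × ℕ × ℕ => (fp true z.1.1, z.2.2))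
          (by unfold fp; fun_prop))))).congr fun x => ⟨?_, fun h => ?_⟩
    · rintro ⟨y, h1, h2, h3⟩
      rwa [h1, h2]
    · obtain ⟨k, hk⟩ := hel _ ((TG real).nsmul_mem (ν.symm x.2.2.1).2 x.2.1)
      obtain ⟨l, hl⟩ := hel _ h.mem
      exact ⟨(k, l), hk.symm, by rw [hk, hl], hl ▸ h⟩
  have hex : ∀ n, ∃ i, i ≠ ν 0 ∧ Dv (TG real) (fp false (Nat.pair 1 n)) (el i) := by
    intro n
    obtain ⟨w, hw⟩ := hV n
    obtain ⟨g, h1, h2⟩ := h.exists_root hw
    obtain ⟨i, rfl⟩ := hel g h2.mem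
    exact ⟨i, fun e => h1 (by simp [el, e]), h2⟩
  have xn : SigIn (H Y 4) fun x : ℕ × ℕ => x.2 = Nat.find (hex x.1) := by
    refine (SigIn.and (p := fun x : ℕ × ℕ => x.2 ≠ ν 0 ∧
      Dv (TG real) (fp false (Nat.pair 1 x.1)) (el x.2)) (q := fun x : ℕ × ℕ => ∀ j < x.2,
        j = ν 0 ∨ ¬ Dv (TG real) (fp false (Nat.pair 1 x.1)) (el j))
      (SigIn.and (SigIn.dec (by fun_prop)) (dv.comp (f := fun x : ℕ × ℕ =>
        (fp false (Nat.pair 1 x.1), x.2)) (by unfold fp; fun_prop)))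
      (SigIn.ball (by fun_prop) (SigIn.or (SigIn.dec (by fun_prop)) ((ndv.red r4).comp
        (f := fun x : (ℕ × ℕ) × ℕ => (fp false (Nat.pair 1 x.1.1), x.2))
        (by unfold fp; fun_prop))))).congr fun x => ?_
    rw [eq_comm, Nat.find_eq_iff]
    simp only [not_and_or, not_not]
  obtain ⟨ND, hND, eND⟩ := ndv.lift
  obtain ⟨DV, hDV, eDV⟩ := dv.lift
  obtain ⟨LK, hLK, eLK⟩ := lk.lift
  obtain ⟨XN, hXN, eXN⟩ := xn.lift
  have h1 : Sig fun (x : Code × ℕ × ℕ × ℕ × ℕ) A =>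
      ND ((fp false (Nat.pair x.2.2.1 x.2.2.2.1), x.2.2.2.2), x.2.1) A ∨
      ∃ c j v, IsB c ∧ Le (2 ^ 2 ^ c) x.2.1 ∧
        v ∈ x.1.eval (encode (c, (j : ℕ), x.2.2.1, x.2.2.2.1, x.2.2.2.2)) ∧
        ∃ w, Up (2 ^ 2 ^ c) v x.2.1 w ∧ A w = false := by
    unfold fp
    repeat' first
      | apply Sig.or | apply Sig.and | (apply Sig.le <;> fun_prop) | apply Sig.ex
      | (apply hND.comp; fun_prop) | (apply Sig.orc <;> fun_prop) | (apply Sig.isB; fun_prop)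
      | (apply Sig.mem_eval <;> fun_prop) | (apply Sig.up <;> fun_prop)
  obtain ⟨s, hs, es⟩ := h1.index
  have h2 : Sig fun (x : Code × ℕ × ℕ × ℕ × ℕ × ℕ) A =>
      (x.2.2.1 = 0 ∧ A (s (x.1, x.2.1, x.2.2.2)) = false) ∨
      ∃ j N i v, x.2.2.1 = j + 1 ∧
        DV ((fp false (Nat.pair x.2.2.2.1 x.2.2.2.2.1), x.2.2.2.2.2), 2 ^ x.2.1) A ∧ N ≠ 0 ∧
        v ∈ x.1.eval (encode (x.2.1, j, x.2.2.2.1 + 1, 0, i)) ∧ jump A v = true ∧
        LK ((Nat.pair (x.2.2.2.1 + 1) 0, N, x.2.2.2.2.2, i), 2 ^ x.2.1) A := by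
    unfold fp
    repeat' first
      | apply Sig.or | apply Sig.and | apply Sig.ex
      | (apply hDV.comp; fun_prop) | (apply hLK.comp; fun_prop) | (apply Sig.jmp; fun_prop)
      | (apply Sig.orc <;> fun_prop) | (apply Sig.mem_eval <;> fun_prop) | (apply Sig.dec; fun_prop)
  obtain ⟨t, k, ht, hk, et⟩ := h2.recursion
  simp only [hk, Prod.forall] at et
  have h4 : ∀ c, IsB c → InO c → KLe 4 (2 ^ c) := fun c h1 h2 => (h1.kle h2).succ h2
  have h3 : ∀ w : ℕ × ℕ, IsB w.1 → KLe w.1 a → ∀ d m i, 2 ≤ d →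
      (jump (H Y (2 ^ w.1)) (t (w.1, w.2, d, m, i)) = true ↔ PR real ty w d m (el i)) := by
    intro w
    induction w using wlt_wf.induction with
    | _ w ih =>
      obtain ⟨c, j⟩ := w
      intro hc hc' d m i hd
      have hc'' := hc'.left ha
      rw [et]
      cases j with
      | zero =>
        rw [h.pr_zero hβ hc hc' hd]
        simp only [true_and, Nat.zero_ne_add_one, false_and, exists_false, or_false]
        rw [H_succ _ hc'', ← Bool.not_eq_true, es]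
        simp only [hk, exists_and_left, exists_eq_left]
        simp only [eND _ _ hc'' (hc.kle hc''), not_or, not_not, not_exists, not_and, le_iff hc'']
        rw [show ∀ (P Q : ℕ → Prop) (R : ℕ → ℕ → Prop), (∀ c, P c → Q c → ∀ j, R c j) ↔
          ∀ c j, P c → Q c → R c j from
          fun P Q R => ⟨fun h c j a b => h c a b j, fun h c a b j => h c j a b⟩]
        refine and_congr_right fun _ => forall₂_congr fun c' j => imp_congr_right fun h5 => ?_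
        have h6 : KLe (2 ^ 2 ^ c') c ↔ KLt c' c := by
          refine ⟨fun h6 => ?_, h5.ss_le hc⟩
          have := h5.two_le
          exact (((h6.left hc'').pred (by positivity)).pred (by omega)).lt_ss.trans_le h6
        rw [h6]
        refine imp_congr_right fun h7 => ?_
        rw [← ih (c', j) (Or.inl ⟨h5, h7⟩) h5 (h7.le.trans hc') d m i hd, ← H_succ _ h7.left.succ,
          ← Bool.not_eq_false, ← up_iff hc'' (h6.2 h7)]
        simp
      | succ j =>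
        rw [h.pr_succ hβ hd]
        simp only [Nat.add_one_ne_zero, false_and, false_or, Nat.add_right_cancel_iff,
          eDV _ _ hc''.succ (h4 c hc hc''), eLK _ _ hc''.succ (h4 c hc hc'')]
        constructor
        · rintro ⟨_, N, i', _, rfl, a1, a2, rfl, a3, a4⟩
          exact ⟨a1, N, _, a2, (ih (c, j) (wlt_succ _) hc hc' _ _ _ (by omega)).1 a3, a4⟩
        · rintro ⟨a1, N, g, a2, a3, a4⟩
          obtain ⟨i', rfl⟩ := hel g a3.1.mem
          exact ⟨_, N, i', _, rfl, a1, a2, rfl,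
            (ih (c, j) (wlt_succ _) hc hc' _ _ _ (by omega)).2 a3, a4⟩
  have h5 : ∀ n, el (Nat.find (hex n)) ≠ 0 := fun n e =>
    (Nat.find_spec (hex n)).1 (by simpa [el, Equiv.symm_apply_eq] using e)
  choose U U1 U3 using fun n => h.decode hβ (hU n) (h5 n) (Nat.find_spec (hex n)).2
  refine ⟨U, U1, fun x A => ∃ i N i', XN ((x.1, i), 2 ^ β x.1 x.2) A ∧ N ≠ 0 ∧
    jump A (t (β x.1 x.2, 0, 2, x.2, i')) = true ∧
    LK ((Nat.pair 2 x.2, N, i, i'), 2 ^ β x.1 x.2) A, ?_, fun n m => ?_⟩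
  · repeat' first
      | apply Sig.and | apply Sig.ex
      | (apply hXN.comp; fun_prop) | (apply hLK.comp; fun_prop) | (apply Sig.jmp; fun_prop)
      | (apply Sig.dec; fun_prop)
  · have hc := (hβ n m).2.left ha
    simp only [U3, eXN _ _ hc.succ (h4 _ (hβ n m).1 hc), eLK _ _ hc.succ (h4 _ (hβ n m).1 hc),
      h3 (β n m, 0) (hβ n m).1 (hβ n m).2 2 m _ le_rfl]
    constructor
    · rintro ⟨_, N, i', a0, a1⟩
      exact ⟨N, _, a0 ▸ a1⟩
    · rintro ⟨N, g, a2, a3, a4⟩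
      obtain ⟨i', rfl⟩ := hel g a3.1.mem
      exact ⟨_, N, i', rfl, a2, a3, a4⟩
end Pool.Agent.Lib.MP_5290c5_lc.NL
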