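import Pool.Agent.Lib.MP_5290c5_lc.NL.Two

/-!
The spectrum theorem and the jump degrees it gives.
-/

namespace Pool.Agent.Lib.MP_5290c5_lc.NL

open Pool.Agent.Shared.Oracle Encodable Nat.Partrec

attribute [local irreducible] Computable

/-- The conclusion at level `a`. -/
def Spec (a : ℕ) : Prop := ∃ G : AddSubgroup (List En →₀ ℚ),
  (∀ X, Cop G X ↔ ∀ b, KLt b a → ¬ Red (H X b) (H zero b)) ∧
  IsLeast (JumpSp G a) (degree (H zero a)) ∧ ∀ b, KLt b a → ¬ ∃ d, IsLeast (JumpSp G b) d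

theorem spec_of {a : ℕ} (ha : InO a) {γ : ℕ → ℕ} (hγ : ∀ j, KLt (γ j) a) (hγ' : Computable γ)
    (hc : ∀ b, KLt b a → ∃ j, KLe b (γ j)) {G : AddSubgroup (List En →₀ ℚ)}
    (hG : ∀ X, Cop G X ↔ ∀ j, ¬ Red (H X (γ j)) (H zero (γ j))) : Spec a := by
  have h1 : ∀ X, Cop G X ↔ ∀ b, KLt b a → ¬ Red (H X b) (H zero b) := fun X =>
    (hG X).trans ⟨fun h b hb h' => let ⟨j, hj⟩ := hc b hb; h j (h'.mono_H hb.left hj),
      fun h j => h _ (hγ j)⟩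
  obtain ⟨D, hD, dD, eD⟩ := exists_dense ha hγ hγ'
  obtain ⟨X₀, h2, h3⟩ := exists_low ha (0, 0) hD dD
  obtain ⟨ν₀, h4⟩ := (hG X₀).2 (eD X₀ h2)
  refine ⟨G, h1, ⟨(mem_jumpSp ha).2 ⟨ν₀, le_antisymm (degree_le.2 ((red_zero _).H ha))
    (degree_le.2 ((h4.H ha).trans h3))⟩, fun d hd => ?_⟩, fun b hb ⟨d, h5, h6⟩ => ?_⟩
  · obtain ⟨ν, rfl⟩ := (mem_jumpSp ha).1 hd
    exact degree_le.2 ((red_zero _).H ha)
  obtain ⟨ν, rfl⟩ := (mem_jumpSp hb.left).1 h5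
  refine (h1 _).1 ⟨ν, Red.refl _⟩ b hb (low_of_generic dD hb.left fun X hX => ?_)
  obtain ⟨ν', h7⟩ := (hG X).2 (eD X hX)
  exact (degree_le.1 (h6 ((mem_jumpSp hb.left).2 ⟨ν', rfl⟩))).trans (h7.H hb.left)

theorem spec {a : ℕ} (h : KLt 4 a) : Spec a := by
  have ha := h.right
  have h2 : ∀ c, IsB c → 2 ^ 2 ^ c ≠ 2 := fun c hc e => by
    have := pow_inj (b := 0) (pow_inj (b := 1) e)
    have := hc.two_le
    omega
  have h0 : ∀ {γ : ℕ → ℕ}, (∀ j, IsB (γ j) ∧ γ j ≠ 2 ∧ KLt (γ j) a) → Computable γ →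
      (∀ b, KLt b a → ∃ j, KLe b (γ j)) → Spec a := fun h1 h3 h4 =>
    let ⟨_, hG⟩ := two ha h1 h3
    spec_of ha (fun j => (h1 j).2.2) h3 h4 hG
  rcases ha.isB with h1 | h1
  · rcases h1.cases ha with rfl | ⟨e, f, rfl, hf⟩ | ⟨c, h3, h4, rfl⟩
    · exact absurd (h.trans inO_two.lt_succ) KLt.irrefl
    · choose l l1 l2 l3 l4 using hf.exists_B
      have := hf.computable
      have hl : Computable l := by
        refine computable_of_graph (REPred.of_eq (p := fun x : ℕ × ℕ => IsB x.2 ∧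
          (x.2 = f x.1 ∨ x.2 = 2 ^ f x.1)) (Sig.and (Sig.isB (by fun_prop))
            (Sig.dec (by fun_prop))).to_re fun x => ⟨fun ⟨h3, h6⟩ => ?_, fun h => h ▸ ⟨l2 _, l1 _⟩⟩) 0
        rcases h6 with h6 | h6 <;> rcases l1 x.1 with h9 | h9
        · exact h6.trans h9.symm
        · exact absurd (h9 ▸ l2 _) (IsB.not_succ (h6 ▸ h3))
        · exact absurd (h6 ▸ h3) (IsB.not_succ (h9 ▸ l2 _))
        · exact h6.trans h9.symm
      exact h0 (γ := fun j => 2 ^ 2 ^ l j)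
        (fun j => ⟨(l2 j).ss, h2 _ (l2 j), (l4 j).succ_lt_lim.succ_lt_lim⟩) (by fun_prop)
        fun b hb => (hf.of_lt hb).imp fun j hj => (hj.trans (l3 j)).trans (l4 j).left.lt_ss.le
    · obtain ⟨G, hG⟩ := one h3 h4
      exact spec_of ha (γ := fun _ => 2 ^ c) (fun _ => h4.succ.lt_succ) (Computable.const _)
        (fun b hb => ⟨0, hb.of_succ.2⟩) fun X => (hG X).trans ⟨fun h _ => h, fun h => h 0⟩
  · rcases h1.inv with h3 | ⟨e, h3⟩ | ⟨c, h3, h4⟩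
    · exact absurd (pow_inj (b := 1) h3 ▸ h) not_lt_one
    · exact absurd h3 (pow_ne_lim _ _)
    · obtain rfl := pow_inj h4
      exact h0 (γ := fun _ => c) (fun _ => ⟨h3, fun e => KLt.irrefl (e ▸ h : KLt 4 (2 ^ 2)),
        h.of_succ.1.lt_succ⟩) (Computable.const _) fun b hb => ⟨0, hb.of_succ.2⟩

end Pool.Agent.Lib.MP_5290c5_lc.NL
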