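import Pool.Agent.Lib.MP_5290c5_lc.NL.Run

/-!
Spectra of the first kind, and reals that are not low.
-/

namespace Pool.Agent.Lib.MP_5290c5_lc.NL

open Pool.Agent.Shared.Oracle Encodable Nat.Partrec

attribute [local irreducible] Computable

theorem exists_dense {a : ℕ} (ha : InO a) {γ : ℕ → ℕ} (hγ : ∀ j, KLt (γ j) a)
    (hγ' : Computable γ) : ∃ D : ℕ × ℕ → List Bool → Prop,
      SigIn (H zero a) (fun x : (ℕ × ℕ) × List Bool => D x.1 x.2) ∧
      (∀ i σ, ∃ τ, σ <+: τ ∧ D i τ) ∧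
      ∀ X, (∀ i, ∃ k, D i (seg X k)) → ∀ j, ¬ Red (H X (γ j)) (H zero (γ j)) := by
  obtain ⟨h, hh, eh⟩ := (Sig.ex (P := fun (x : ℕ × ℕ × Bool) v A => v ∈ phi x.1 (encode x.2) ∧
    jump A v = true) (Sig.and (Sig.mem_phi (by fun_prop) (by fun_prop) (by fun_prop))
      (Sig.jmp (by fun_prop)))).index
  refine ⟨fun x σ => ∃ i, i < σ.length ∧
    (jump (H zero (γ x.1)) (h (x.2, i, σ.getD i false)) = false ∨
      jump (H zero (γ x.1)) (h (x.2, i, !σ.getD i false)) = true), ?_, fun x σ => ?_,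
    fun X hX j h1 => ?_⟩
  · refine (Sig.sigIn (P := fun (x : (ℕ × ℕ) × List Bool) A => ∃ i, i < x.2.length ∧
      ((∃ m, Up (2 ^ γ x.1.1) (h (x.1.2, i, x.2.getD i false)) a m ∧ A m = false) ∨
      ∃ m, Up (2 ^ γ x.1.1) (h (x.1.2, i, !x.2.getD i false)) a m ∧ A m = true)) ?_ _).congr
      fun x => ?_
    · repeat' first
        | apply Sig.or | apply Sig.and | apply Sig.ex | (apply Sig.up <;> fun_prop)
        | (apply Sig.orc <;> fun_prop) | (apply Sig.dec; fun_prop)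
    · simp only [up_iff ha (hγ _).succ_le, H_succ _ (hγ _).left]
  · cases h1 : jump (H zero (γ x.1)) (h (x.2, σ.length, true))
    · exact ⟨σ ++ [true], List.prefix_append _ _, σ.length, by simp, Or.inl (by simpa using h1)⟩
    · exact ⟨σ ++ [false], List.prefix_append _ _, σ.length, by simp, Or.inr (by simpa using h1)⟩
  · have h2 : Red X (H zero (γ j)) :=
      Red.trans (by simpa using red_H X (hγ j).left (hγ j).left.one_le) h1
    obtain ⟨g, hg, eg⟩ := SigIn.index h2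
    obtain ⟨e, he⟩ := exists_code hg
    have h3 : ∀ i b, jump (H zero (γ j)) (h (e, i, b)) = true ↔ X i = b := fun i b => by
      simp only [eh, he, exists_eq_left, eg]
    obtain ⟨k, i, h4, h5⟩ := hX (j, e)
    rw [seg_length] at h4
    have h6 : (seg X k).getD i false = X i := by simp [seg, h4]
    simp only [h6, ← Bool.not_eq_true, h3] at h5
    simp at h5

theorem exists_nonlow {a : ℕ} (ha : InO a) {γ : ℕ → ℕ} (hγ : ∀ j, KLt (γ j) a)
    (hγ' : Computable γ) : ∃ X, ∀ j, ¬ Red (H X (γ j)) (H zero (γ j)) := by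
  obtain ⟨D, -, h1, h2⟩ := exists_dense ha hγ hγ'
  obtain ⟨X, hX⟩ := exists_generic D h1
  exact ⟨X, h2 X hX⟩

theorem frame {V : ℕ → Set ℕ → Prop} {β : ℕ → ℕ → ℕ} {a : ℕ} (ha : InO a)
    (hβ : ∀ n m, IsB (β n m) ∧ KLe (β n m) a) (hβ' : Computable fun p : ℕ × ℕ => β p.1 p.2)
    (hV : ∀ n, ∃ F, V n F) (hU : ∀ n F G, V n F → V n G → V n (F ∪ G))
    {C : (ℕ → Bool) → Prop} (h0 : ∃ X, C X)
    (hb : ∀ X, C X → ∃ real ty, Hom V β real ty ∧ Cop (TG real) X) :
    ∃ G : AddSubgroup (List En →₀ ℚ), (∀ X, C X → Cop G X) ∧ ∀ ν : G ≃ ℕ, ∃ U : ℕ → Set ℕ,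
      (∀ n, V n (U n)) ∧ ∃ Q : ℕ × ℕ → (ℕ → Bool) → Prop, Sig Q ∧
        ∀ n m, Q (n, m) (H (diagram ν) (2 ^ β n m)) ↔ m ∉ U n := by
  obtain ⟨X₀, h0⟩ := h0
  obtain ⟨real, ty, h1, -⟩ := hb X₀ h0
  refine ⟨TG real, fun X hX => ?_, decode h1 ha hβ hβ' hV hU⟩
  obtain ⟨real', ty', h2, h3⟩ := hb X hX
  obtain ⟨φ⟩ := h1.iso h2
  exact h3.of_equiv φ

theorem exists_list {F : Set ℕ} (h : F.Finite) :
    ∃ y, ∀ m, m ∈ Denumerable.ofNat (List ℕ) y ↔ m ∈ F :=
  ⟨encode h.toFinset.toList, fun m => by simp⟩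

theorem one {c : ℕ} (hc : IsB c) (hc' : InO c) : ∃ G : AddSubgroup (List En →₀ ℚ),
    ∀ X, Cop G X ↔ ¬ Red (H X (2 ^ c)) (H zero (2 ^ c)) := by
  classical
  obtain ⟨h, hh, eh⟩ := (Sig.ex (P := fun (x : ℕ × ℕ) v A => v ∈ phi x.1 (encode x) ∧
    jump A v = true) (Sig.and (Sig.mem_phi (by fun_prop) (by fun_prop) (by fun_prop))
      (Sig.jmp (by fun_prop)))).index
  obtain ⟨q, hq, mq, eq⟩ := (Sig.jmp hh).nf
  set Z := H zero (2 ^ c) with hZ
  let hi : ℕ → ℕ → ℕ → Bool := fun n m s => decide (q (n, m) (seg Z s))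
  have e1 : ∀ n m, (∃ s, hi n m s = true) ↔ jump Z (h (n, m)) = true := fun n m => by
    simp [hi, eq]
  have m1 : ∀ n m s t, s ≤ t → hi n m s = true → hi n m t = true := fun n m s t a b => by
    simp only [hi, decide_eq_true_eq] at b ⊢
    exact mq _ _ _ (seg_prefix _ a) b
  have c1 : Computable fun y : (ℕ × ℕ) × List Bool => decide (q y.1 y.2) := hq.decide.to_comp
  let V : ℕ → Set ℕ → Prop := fun n F => F.Finite ∧
    ((∃ x ∈ F, ∃ s, hi n x s = true) ∨ ∃ m, (∀ y ∈ F, y < m) ∧ ¬ ∃ s, hi n m s = true)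
  let L : En → List ℕ := fun x => cond ((Denumerable.ofNat (List ℕ) x.2.2.1.1).all
    fun y => decide (y < x.2.1)) (Denumerable.ofNat (List ℕ) x.2.2.1.1) []
  have cL : Computable L := by unfold L; fun_prop
  have hL : ∀ x, ∀ y ∈ L x, y < x.2.1 := fun x y hy => by
    simp only [L] at hy
    cases h1 : (Denumerable.ofNat (List ℕ) x.2.2.1.1).all fun y => decide (y < x.2.1)
    · simp [h1] at hy
    · rw [h1] at hy
      simpa using List.all_eq_true.1 h1 y hy
  obtain ⟨G, h1, h2⟩ := frame (V := V) (β := fun _ _ => c) hc' (fun _ _ => ⟨hc, KLe.rfl⟩)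
    (Computable.const _) (fun n => by
      by_cases h1 : ∃ s, hi n 0 s = true
      · exact ⟨{0}, Set.finite_singleton _, Or.inl ⟨0, rfl, h1⟩⟩
      · exact ⟨∅, Set.finite_empty, Or.inr ⟨0, by simp, h1⟩⟩)
    (by
      rintro n F G ⟨a1, ⟨x, a2, a3⟩ | ⟨m, a2, a3⟩⟩ ⟨b1, b2⟩
      · exact ⟨a1.union b1, Or.inl ⟨x, Or.inl a2, a3⟩⟩
      rcases b2 with ⟨x, b2, b3⟩ | ⟨m', b2, b3⟩
      · exact ⟨a1.union b1, Or.inl ⟨x, Or.inr b2, b3⟩⟩
      rcases le_total m m' with h1 | h1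
      · exact ⟨a1.union b1, Or.inr ⟨m', fun y hy => hy.elim (fun hy => (a2 y hy).trans_le h1)
          (b2 y), b3⟩⟩
      · exact ⟨a1.union b1, Or.inr ⟨m, fun y hy => hy.elim (a2 y)
          (fun hy => (b2 y hy).trans_le h1), a3⟩⟩)
    (C := fun X => ¬ Red (H X (2 ^ c)) Z)
    ((exists_nonlow hc'.succ.succ (γ := fun _ => 2 ^ c) (fun _ => hc'.succ.lt_succ)
      (Computable.const _)).imp fun X hX => hX 0) (fun X hX => by
    set A := H X (2 ^ c) with hA
    obtain ⟨o, ho⟩ : ∃ o, ¬ RC Z A o := by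
      by_contra h1
      push Not at h1
      exact hX (red_of_rc (h1 _) (h1 _))
    let bit : ℕ → Bool := fun i => !decide (A i = o)
    let hi' : ℕ → List Bool → ℕ → ℕ → Bool := fun n τ m s => decide (q (n, m) (τ.take s))
    let bit' : List Bool → ℕ → Bool := fun σ i => !decide (σ.getD i false = o)
    have e2 : ∀ n k t, t ≤ k → ∀ m, hi' n (seg Z k) m t = hi n m t := fun n k t a m => by
      simp only [hi', hi, seg_take Z a]
    have e3 : ∀ k j, j < k → bit' (seg A k) j = bit j := fun k j a => by simp [bit', bit, seg, a]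
    have hfin : ∀ x : En, ∃ s, ∀ u, s ≤ u → ¬ act (hi x.1) (x.2.1 + x.2.2.2) u
        (run (hi x.1) bit (L x) x.2.1 (x.2.1 + x.2.2.2) u) = true := by
      intro x
      by_contra h1
      push Not at h1
      have h2 := run_infinite (m1 x.1) h1
      have c2 : Computable fun y : (List Bool × ℕ × List Bool) × ℕ × ℕ =>
          hi' x.1 y.1.2.2 y.2.1 y.2.2 :=
        c1.comp (g := fun y : (List Bool × ℕ × List Bool) × ℕ × ℕ =>
          ((x.1, y.2.1), y.1.2.2.take y.2.2)) (by fun_prop)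
      have c3 : Computable fun y : List Bool × ℕ × List Bool =>
          run (hi' x.1 y.2.2) (bit' y.1) (L x) x.2.1 (x.2.1 + x.2.2.2) y.2.1 :=
        c_run (hi := fun y : List Bool × ℕ × List Bool => hi' x.1 y.2.2)
          (bit := fun y : List Bool × ℕ × List Bool => bit' y.1) c2 (by unfold bit'; fun_prop)
          (by fun_prop) (by fun_prop) (by fun_prop) (by fun_prop)
      have c4 := c_act (hi := fun y : List Bool × ℕ × List Bool => hi' x.1 y.2.2)
        (s₀ := fun _ => x.2.1 + x.2.2.2) (s := fun y => y.2.1) c2 (by fun_prop) (by fun_prop) c3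
      refine ho ⟨fun σ => ∃ y : ℕ × List Bool, y.2 = seg Z y.1 ∧
        ((run (hi' x.1 y.2) (bit' σ) (L x) x.2.1 (x.2.1 + x.2.2.2) y.1).2.2 = σ.length ∧
        act (hi' x.1 y.2) (x.2.1 + x.2.2.2) y.1
          (run (hi' x.1 y.2) (bit' σ) (L x) x.2.1 (x.2.1 + x.2.2.2) y.1) = true) ∧
        jump Z (h (x.1, 2 * y.1 + 1)) = true, SigIn.ex (SigIn.and
          ((Sig.eqseg (by fun_prop) (by fun_prop)).sigIn _) (SigIn.and (SigIn.dec
            (FP.c_decide_and (FP.c_decide_eq (FP.c_snd (FP.c_snd c3)) (by fun_prop))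
              (FP.c_decide_eq c4 (by fun_prop)))) ((Sig.jmp (by fun_prop)).sigIn _))), fun i => ?_⟩
      have h3 : A i = o ↔ bit i = false := by simp [bit]
      have h4 : ∀ s p, act (hi' x.1 (seg Z s)) (x.2.1 + x.2.2.2) s p =
          act (hi x.1) (x.2.1 + x.2.2.2) s p := fun s p => by
        simp only [act, e2 x.1 s s le_rfl]
      rw [h3, h2]
      simp only [seg_length, Prod.exists, exists_eq_left, h4, e1]
      refine exists_congr fun s => ?_
      rw [and_assoc]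
      constructor
      · rintro ⟨a1, a2⟩
        have a4 := run_congr (hi' := hi x.1) (bit' := bit) (fun t ht m => (e2 x.1 s t ht.le m).symm)
          fun j hj => (e3 i j (hj.trans_eq a1)).symm
        rw [a4]
        exact ⟨a1, a2⟩
      · rintro ⟨a1, a2⟩
        have a4 := run_congr (hi' := hi' x.1 (seg Z s)) (bit' := bit' (seg A i))
          (fun t ht m => e2 x.1 s t ht.le m) fun j hj => e3 i j (hj.trans_eq a1)
        rw [a4]
        exact ⟨a1, a2⟩
    have hS : SigIn A fun y : En × ℕ =>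
        y.2 ∉ (run (hi y.1.1) bit (L y.1) y.1.2.1 (y.1.2.1 + y.1.2.2.2) (y.2 + 1)).1 := by
      have c3 : Computable fun y : (En × ℕ) × List Bool × List Bool =>
          run (hi' y.1.1.1 y.2.1) (bit' y.2.2) (L y.1.1) y.1.1.2.1 (y.1.1.2.1 + y.1.1.2.2.2)
            (y.1.2 + 1) :=
        c_run (hi := fun y : (En × ℕ) × List Bool × List Bool => hi' y.1.1.1 y.2.1)
          (bit := fun y : (En × ℕ) × List Bool × List Bool => bit' y.2.2)
          (c1.comp (g := fun y : ((En × ℕ) × List Bool × List Bool) × ℕ × ℕ =>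
            ((y.1.1.1.1, y.2.1), y.1.2.1.take y.2.2)) (by fun_prop)) (by unfold bit'; fun_prop)
          (by fun_prop) (by fun_prop) (by fun_prop) (by fun_prop)
      refine SigIn.congr (p := fun y : En × ℕ => ∃ z : List Bool × List Bool,
        z.1 = seg Z (y.2 + 1) ∧ z.2 = seg A (y.2 + 1) ∧
        ¬ y.2 ∈ (run (hi' y.1.1 z.1) (bit' z.2) (L y.1) y.1.2.1 (y.1.2.1 + y.1.2.2.2) (y.2 + 1)).1)
        (SigIn.ex (SigIn.and ((Sig.eqseg (by fun_prop) (by fun_prop)).red ((red_zero X).H hc'.succ))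
          (SigIn.and ((Sig.eqseg (by fun_prop) (by fun_prop)).sigIn _) (SigIn.dec
            (FP.c_decide_not (FP.c_decide_mem (by fun_prop) (FP.c_fst c3))))))) fun y => ?_
      have a4 := run_congr (hi' := hi' y.1.1 (seg Z (y.2 + 1))) (bit' := bit' (seg A (y.2 + 1)))
        (hi := hi y.1.1) (bit := bit) (L := L y.1) (r := y.1.2.1) (s₀ := y.1.2.1 + y.1.2.2.2)
        (s := y.2 + 1) (fun t ht m => e2 _ _ t ht.le m)
        fun j hj => e3 _ j (hj.trans_le (run_idx _).1)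
      constructor
      · rintro ⟨⟨_, _⟩, rfl, rfl, a1⟩
        exact a4 ▸ a1
      · exact fun a1 => ⟨(_, _), rfl, rfl, a4 ▸ a1⟩
    obtain ⟨Q, hQ, eQ⟩ := hS
    refine build hc' (fun _ _ => ⟨hc, KLe.rfl⟩) (Computable.const _)
      (F := fun x => {m | m ∈ (run (hi x.1) bit (L x) x.2.1 (x.2.1 + x.2.2.2) (m + 1)).1})
      (fun x => ?_) (fun n F hF => ?_) hQ fun x m => (eQ (x, m)).symm
    · obtain ⟨s, hs⟩ := hfin x
      obtain ⟨a1, a2⟩ := run_finite (m1 x.1) (hL x) (Nat.le_add_right _ _) hs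
      rw [a1]
      exact ⟨List.finite_toSet _, a2⟩
    · obtain ⟨y, hy⟩ := exists_list hF.1
      obtain ⟨m, μ, a1, a2⟩ : ∃ m μ, (∀ z ∈ F, z < m) ∧ ∀ u, μ ≤ u →
          (∃ z ∈ F, hi n z u = true) ∨ hi n m u = false := by
        rcases hF.2 with ⟨z, a1, s, a2⟩ | ⟨m, a1, a2⟩
        · obtain ⟨B, hB⟩ := hF.1.bddAbove
          exact ⟨B + 1, s, fun z hz => Nat.lt_succ_of_le (hB hz),
            fun u hu => Or.inl ⟨z, a1, m1 _ _ _ _ hu a2⟩⟩
        · exact ⟨m, 0, a1, fun u _ => Or.inr (by simpa using not_exists.1 a2 u)⟩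
      refine Set.infinite_of_injective_forall_mem (f := fun k : ℕ => ((n, m, (y, 0), μ + k) : En))
        (fun k k' e => by simpa using e) fun k => ⟨rfl, ?_⟩
      have a3 : L (n, m, (y, 0), μ + k) = Denumerable.ofNat (List ℕ) y := by
        have : ((Denumerable.ofNat (List ℕ) y).all fun z => decide (z < m)) = true :=
          List.all_eq_true.2 fun z hz => by simpa using a1 z ((hy z).1 hz)
        simp only [L, this, cond_true]
      have a4 : ∀ u, run (hi n) bit (Denumerable.ofNat (List ℕ) y) m (m + (μ + k)) u =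
          (Denumerable.ofNat (List ℕ) y, m, 0) := by
        intro u
        induction u with
        | zero => rfl
        | succ u ih =>
          rw [run_neg, ih]
          rw [ih, act_iff]
          rintro ⟨b1, b2, b3⟩
          rcases a2 u (by omega) with ⟨z, b4, b5⟩ | b4
          · simp [b2 z ((hy z).2 b4)] at b5
          · simp [b4] at b3
      ext z
      simp only [a3, a4, Set.mem_ofPred_eq, hy])
  refine ⟨G, fun X => ⟨?_, h1 X⟩⟩
  rintro ⟨ν, hν⟩ hX
  obtain ⟨U, a2, Q, a5, a6⟩ := h2 ν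
  have a7 : SigIn (H (diagram ν) (2 ^ c)) fun x : ℕ × ℕ => x.2 ∉ U x.1 :=
    (a5.sigIn _).congr fun x => a6 _ _
  obtain ⟨g, hg, eg⟩ := (a7.red ((hν.H hc'.succ).trans hX)).index
  obtain ⟨e, he⟩ := exists_code hg
  have a8 : ∀ m, (∃ s, hi e m s = true) ↔ m ∉ U e := fun m => by
    simp only [e1, eh, he, exists_eq_left, eg]
  rcases (a2 e).2 with ⟨x, b1, b2⟩ | ⟨m, b1, b2⟩
  · exact (a8 x).1 b2 b1
  · exact b2 ((a8 m).2 fun b3 => (b1 m b3).false)

end Pool.Agent.Lib.MP_5290c5_lc.NL
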