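import Pool.Agent.Lib.MP_5290c5_lc.NL.One

/-!
The decided path through the tree of all numbers, closures, and unique certificates.
-/

namespace Pool.Agent.Lib.MP_5290c5_lc.NL

open Pool.Agent.Shared.Oracle Encodable Nat.Partrec

attribute [local irreducible] Computable

/-- The parent of a number. -/
def par (z : ℕ) : ℕ := (z - 1).unpair.1

theorem par_le (z : ℕ) : par z ≤ z - 1 := Nat.unpair_left_le _

theorem par_lt {z : ℕ} (h : z ≠ 0) : par z < z := by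
  have := par_le z
  omega

theorem iter_par_le (j z : ℕ) : par^[j] z ≤ z - j := by
  induction j with
  | zero => exact le_rfl
  | succ j ih =>
    rw [Function.iterate_succ_apply']
    have := par_le (par^[j] z)
    omega

theorem par_pair (x y : ℕ) : par (Nat.pair x y + 1) = x := by simp [par]

@[fun_prop] theorem c_par {α : Type} [Primcodable α] {f : α → ℕ} (hf : Computable f) :
    Computable fun a => par (f a) := by
  unfold par
  fun_prop

theorem c_iter {α : Type} [Primcodable α] {f g : α → ℕ} (hf : Computable f) (hg : Computable g) :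
    Computable fun a => par^[f a] (g a) :=
  FP.c_iterate (h := fun _ => par) hf hg (by fun_prop)

/-- The number `y` is the first child of its parent that is declared to be in. -/
def St (Lo Hi : ℕ → Prop) (y : ℕ) : Prop :=
  y = 0 ∨ (Lo y ∧ ∀ y' < y, (y' = 0 ∨ par y' ≠ par y) ∨ Hi y')

/-- The decided path. -/
def On (Lo Hi : ℕ → Prop) (x : ℕ) : Prop := ∀ j < x, St Lo Hi (par^[j] x)

/-- The last node of the decided path. -/
def Leaf (Lo Hi : ℕ → Prop) (x : ℕ) : Prop := On Lo Hi x ∧ ∀ y, (y = 0 ∨ par y ≠ x) ∨ Hi y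

/-- The closure of `L` under valid children. -/
def Cl (L : List ℕ) (Va : ℕ → Prop) (z : ℕ) : Prop :=
  ∃ j < z + 1, par^[j] z ∈ L ∧ ∀ i < j, Va (par^[i] z)

/-- Admissible sets of the second kind. -/
def Adm (Lo Hi : ℕ → Prop) (F : Set ℕ) : Prop :=
  F.Finite ∧ 0 ∈ F ∧ ((∃ x ∈ F, ¬ Lo x) ∨ ∀ x ∈ F, ¬ Leaf Lo Hi x)

theorem Sig.on {α : Type} [Primcodable α] {P Q : α → ℕ → (ℕ → Bool) → Prop}
    (hP : Sig fun (x : α × ℕ) A => P x.1 x.2 A) (hQ : Sig fun (x : α × ℕ) A => Q x.1 x.2 A)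
    {f : α → ℕ} (hf : Computable f) :
    Sig fun a A => On (fun m => P a m A) (fun m => Q a m A) (f a) := by
  have h1 : Sig fun (x : α × ℕ) A => St (fun m => P x.1 m A) (fun m => Q x.1 m A) x.2 :=
    Sig.or (Sig.dec (by fun_prop)) (Sig.and hP (Sig.ball (by fun_prop) (Sig.or
      (Sig.dec (by fun_prop)) (hQ.comp (f := fun y : (α × ℕ) × ℕ => (y.1.1, y.2)) (by fun_prop)))))
  exact Sig.ball hf (h1.comp (f := fun y : α × ℕ => (y.1, par^[y.2] (f y.1)))
    (FP.c_mk (by fun_prop) (c_iter (by fun_prop) (by fun_prop))))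

variable {Lo Hi Va : ℕ → Prop} {L : List ℕ}

theorem on_all {x : ℕ} : On Lo Hi x ↔ ∀ j, St Lo Hi (par^[j] x) := by
  refine ⟨fun h j => ?_, fun h j _ => h j⟩
  by_cases hj : j < x
  · exact h j hj
  · have := iter_par_le j x
    exact Or.inl (by omega)

theorem on_iff {x : ℕ} : On Lo Hi x ↔ St Lo Hi x ∧ On Lo Hi (par x) := by
  rw [on_all, on_all]
  refine ⟨fun h => ⟨h 0, fun j => h (j + 1)⟩, fun h j => ?_⟩
  cases j with
  | zero => exact h.1
  | succ j => exact h.2 j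

theorem on_zero : On Lo Hi 0 := fun _ h => absurd h (Nat.not_lt_zero _)

theorem On.le_par (hd : ∀ m, Lo m → ¬ Hi m) {y z : ℕ} (hy : On Lo Hi y) (hz : On Lo Hi z)
    (h : z < y) : z ≤ par y := by
  induction hn : y + z using Nat.strong_induction_on generalizing y z with
  | _ n ih =>
    subst hn
    by_contra h1
    have h2 := par_lt (z := y) (by omega)
    have h3 := par_lt (z := z) (by omega)
    have h4 := ih _ (by omega) hz (on_iff.1 hy).2 (by omega) rfl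
    have h5 := ih _ (by omega) hy (on_iff.1 hz).2 (by omega) rfl
    have h6 := ((on_iff.1 hy).1.resolve_left (by omega)).2 z h
    exact hd z ((on_iff.1 hz).1.resolve_left (by omega)).1 (h6.resolve_left (by omega))

theorem cl_iff (h0 : ¬ Va 0) {z : ℕ} : Cl L Va z ↔ z ∈ L ∨ (Va z ∧ Cl L Va (par z)) := by
  have h1 : ∀ z, Cl L Va z ↔ ∃ j, par^[j] z ∈ L ∧ ∀ i < j, Va (par^[i] z) := fun z => by
    refine ⟨fun ⟨j, _, h⟩ => ⟨j, h⟩, fun ⟨j, h1, h2⟩ => ⟨j, ?_, h1, h2⟩⟩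
    by_contra h3
    have h4 := iter_par_le z z
    exact h0 ((show par^[z] z = 0 by omega) ▸ h2 z (by omega))
  rw [h1, h1]
  constructor
  · rintro ⟨_ | j, h2, h3⟩
    · exact Or.inl h2
    · exact Or.inr ⟨h3 0 (by omega), j, h2, fun i hi => h3 (i + 1) (by omega)⟩
  · rintro (h2 | ⟨h2, j, h3, h4⟩)
    · exact ⟨0, h2, by simp⟩
    · refine ⟨j + 1, h3, fun i hi => ?_⟩
      cases i with
      | zero => exact h2
      | succ i => exact h4 i (by omega)

theorem not_adm {U : Set ℕ} (h1 : ∀ m ∈ U, Lo m) (h2 : ∀ m ∉ U, Hi m) : ¬ Adm Lo Hi U := by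
  classical
  rintro ⟨h3, h4, ⟨x, h5, h6⟩ | h5⟩
  · exact h6 (h1 x h5)
  obtain ⟨x, ⟨a1, a2⟩, a3⟩ := (h3.subset (t := {x | x ∈ U ∧ On Lo Hi x}) fun x hx => hx.1).exists_maximal
    ⟨0, h4, on_zero⟩
  refine h5 x a1 ⟨a2, fun y => ?_⟩
  by_contra a4
  have a5 : ∃ y, ¬ (y = 0 ∨ par y ≠ x) ∧ y ∈ U :=
    ⟨y, fun h => a4 (Or.inl h), not_not.1 fun h => a4 (Or.inr (h2 y h))⟩
  obtain ⟨a6, a7⟩ := Nat.find_spec a5
  have a8 : par (Nat.find a5) = x := by omega
  have a9 := par_lt (z := Nat.find a5) (by omega)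
  have a10 : On Lo Hi (Nat.find a5) := on_iff.2 ⟨Or.inr ⟨h1 _ a7, fun y' hy' => by
    rw [a8]
    by_contra a11
    exact Nat.find_min a5 hy' ⟨fun h => a11 (Or.inl h),
      not_not.1 fun h => a11 (Or.inr (h2 _ h))⟩⟩, by rw [a8]; exact a2⟩
  have := a3 ⟨a7, a10⟩ (by omega)
  omega

theorem adm_union {F G : Set ℕ} (hF : Adm Lo Hi F) (hG : Adm Lo Hi G) : Adm Lo Hi (F ∪ G) := by
  refine ⟨hF.1.union hG.1, Or.inl hF.2.1, ?_⟩
  rcases hF.2.2 with ⟨x, a1, a2⟩ | a1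
  · exact Or.inl ⟨x, Or.inl a1, a2⟩
  rcases hG.2.2 with ⟨x, a2, a3⟩ | a2
  · exact Or.inl ⟨x, Or.inr a2, a3⟩
  exact Or.inr fun x hx => hx.elim (a1 x) (a2 x)

theorem exists_adm (hd : ∀ m, Lo m → ¬ Hi m) : ∃ F, Adm Lo Hi F := by
  by_cases h : Leaf Lo Hi 0
  · exact ⟨{0, 1}, Set.toFinite _, by simp, Or.inl ⟨1, by simp, fun h1 =>
      hd 1 h1 ((h.2 1).resolve_left (by simp [par]))⟩⟩
  · exact ⟨{0}, Set.toFinite _, rfl, Or.inr fun x hx => hx ▸ h⟩

theorem exists_on (h0 : ¬ Va 0) (h1 : ∀ z, Va z → On Lo Hi (par z))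
    (h2 : ∀ z z', Va z → Va z' → par z = par z' → z = z') (h : {z | Cl L Va z}.Infinite) (b : ℕ) :
    ∃ y, Cl L Va y ∧ On Lo Hi y ∧ b ≤ y := by
  by_contra h3
  push Not at h3
  refine h (((List.finite_toSet L).union (Set.Finite.of_injOn (f := par)
    (s := {w | Va w ∧ par w < b}) (fun w hw => hw.2) (fun w hw w' hw' => h2 w w' hw.1 hw'.1)
    (Set.finite_lt_nat b))).subset fun z hz => ?_)
  exact ((cl_iff h0).1 hz).imp_right fun h4 => ⟨h4.1, h3 _ h4.2 (h1 _ h4.1)⟩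

theorem valid_of_on (hd : ∀ m, Lo m → ¬ Hi m) (h0 : ¬ Va 0) {z : ℕ} (hz : On Lo Hi z)
    (hL : ∀ w ∈ L, w < z) {y : ℕ} (h1 : Cl L Va y) (h2 : On Lo Hi y) (h3 : z ≤ y) : Va z := by
  induction y using Nat.strong_induction_on with
  | _ y ih =>
    obtain ⟨h4, h5⟩ := ((cl_iff h0).1 h1).resolve_left fun h => (hL y h).not_ge h3
    rcases h3.eq_or_lt with rfl | h6
    · exact h4
    · exact ih _ (par_lt (by omega)) h5 (on_iff.1 h2).2 (h2.le_par hd hz h6)

/-- A certificate that some row of `N` is empty. -/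
def Cert (N : ℕ → ℕ → Prop) (c : ℕ) : Prop :=
  (∀ u, ¬ N c.unpair.1 u) ∧ (∀ i < c.unpair.1, ∃ u < c.unpair.2, N i u) ∧
    (c.unpair.2 = 0 ∨ ∃ i < c.unpair.1, ∀ u < c.unpair.2 - 1, ¬ N i u)

theorem exists_cert {N : ℕ → ℕ → Prop} (h : ∃ i, ∀ u, ¬ N i u) : ∃ c, Cert N c := by
  classical
  have h1 : ∃ t, ∀ i < Nat.find h, ∃ u < t, N i u := by
    have h2 : ∀ i, ∃ t, i < Nat.find h → ∃ u < t, N i u := fun i => by
      by_cases hi : i < Nat.find h
      · obtain ⟨u, hu⟩ := not_forall_not.1 (Nat.find_min h hi)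
        exact ⟨u + 1, fun _ => ⟨u, u.lt_succ_self, hu⟩⟩
      · exact ⟨0, fun h => absurd h hi⟩
    obtain ⟨t, ht⟩ := exists_bound (p := fun i t => i < Nat.find h → ∃ u < t, N i u)
      (fun i t t' a b c => (b c).imp fun u hu => ⟨hu.1.trans_le a, hu.2⟩) h2 (Nat.find h)
    exact ⟨t, fun i hi => ht i hi hi⟩
  refine ⟨Nat.pair (Nat.find h) (Nat.find h1), ?_⟩
  simp only [Cert, Nat.unpair_pair]
  refine ⟨Nat.find_spec h, Nat.find_spec h1, or_iff_not_imp_left.2 fun h2 => ?_⟩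
  have h3 := Nat.find_min h1 (m := Nat.find h1 - 1) (by omega)
  push Not at h3
  exact h3

theorem Cert.unique {N : ℕ → ℕ → Prop} {c c' : ℕ} (h : Cert N c) (h' : Cert N c') : c = c' := by
  have h1 : ∀ {c c'}, Cert N c → Cert N c' → c.unpair.1 ≤ c'.unpair.1 := fun h h' =>
    not_lt.1 fun h1 => let ⟨u, _, hu⟩ := h.2.1 _ h1; h'.1 u hu
  have h2 : ∀ {c c'}, Cert N c → Cert N c' → c.unpair.2 ≤ c'.unpair.2 := fun {c c'} h h' =>
    not_lt.1 fun h2 => by
      obtain ⟨i, a1, a2⟩ := h.2.2.resolve_left (by omega)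
      obtain ⟨u, a3, a4⟩ := h'.2.1 i (a1.trans_le (h1 h h'))
      exact a2 u (by omega) a4
  rw [← Nat.pair_unpair c, ← Nat.pair_unpair c', le_antisymm (h1 h h') (h1 h' h),
    le_antisymm (h2 h h') (h2 h' h)]

end Pool.Agent.Lib.MP_5290c5_lc.NL
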