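import Pool.Agent.Lib.MP_5290c5_lc.NL.Build

/-!
The waiting process used when membership in the family is read at the level of the spectrum.
-/

namespace Pool.Agent.Lib.MP_5290c5_lc.NL

open Pool.Agent.Shared.Oracle Encodable Nat.Partrec

attribute [local irreducible] Computable

/-- The process acts at stage `s` in state `p`. -/
def act (hi : ℕ → ℕ → Bool) (s₀ s : ℕ) (p : List ℕ × ℕ × ℕ) : Bool :=
  decide (s₀ ≤ s) && (p.1.all (fun m => !hi m s) && hi p.2.1 s)

/-- One stage of the process. -/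
def step (hi : ℕ → ℕ → Bool) (bit : ℕ → Bool) (s₀ s : ℕ) (p : List ℕ × ℕ × ℕ) : List ℕ × ℕ × ℕ :=
  cond (act hi s₀ s p)
    ((2 * s + (bit p.2.2).toNat) :: p.1, cond (bit p.2.2) p.2.1 (2 * s + 1), p.2.2 + 1) p

/-- The state of the process at stage `s`. -/
def run (hi : ℕ → ℕ → Bool) (bit : ℕ → Bool) (L : List ℕ) (r s₀ s : ℕ) : List ℕ × ℕ × ℕ :=
  Nat.rec (L, r, 0) (fun s p => step hi bit s₀ s p) s

theorem c_act {α : Type} [Primcodable α] {hi : α → ℕ → ℕ → Bool} {s₀ s : α → ℕ}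
    {p : α → List ℕ × ℕ × ℕ} (h1 : Computable fun x : α × ℕ × ℕ => hi x.1 x.2.1 x.2.2)
    (h2 : Computable s₀) (h3 : Computable s) (h4 : Computable p) :
    Computable fun a => act (hi a) (s₀ a) (s a) (p a) := by
  unfold act
  refine FP.c_and (by fun_prop) (FP.c_and (FP.c_all (by fun_prop) (FP.c_not ?_)) ?_)
  · exact h1.comp (g := fun q : α × ℕ => (q.1, q.2, s q.1)) (by fun_prop)
  · exact h1.comp (g := fun a : α => (a, (p a).2.1, s a)) (by fun_prop)

theorem c_run {α : Type} [Primcodable α] {hi : α → ℕ → ℕ → Bool} {bit : α → ℕ → Bool}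
    {L : α → List ℕ} {r s₀ s : α → ℕ} (h1 : Computable fun x : α × ℕ × ℕ => hi x.1 x.2.1 x.2.2)
    (h2 : Computable fun x : α × ℕ => bit x.1 x.2) (h3 : Computable L) (h4 : Computable r)
    (h5 : Computable s₀) (h6 : Computable s) :
    Computable fun a => run (hi a) (bit a) (L a) (r a) (s₀ a) (s a) := by
  have h7 : Computable fun q : α × ℕ × List ℕ × ℕ × ℕ => bit q.1 q.2.2.2.2 :=
    h2.comp (g := fun q : α × ℕ × List ℕ × ℕ × ℕ => (q.1, q.2.2.2.2)) (by fun_prop)
  have h8 : Computable fun q : α × ℕ × List ℕ × ℕ × ℕ => act (hi q.1) (s₀ q.1) q.2.1 q.2.2 :=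
    c_act (hi := fun q : α × ℕ × List ℕ × ℕ × ℕ => hi q.1)
      (h1.comp (g := fun x : (α × ℕ × List ℕ × ℕ × ℕ) × ℕ × ℕ => (x.1.1, x.2.1, x.2.2))
        (by fun_prop)) (by fun_prop) (by fun_prop) (by fun_prop)
  have h9 : Computable fun q : α × ℕ × List ℕ × ℕ × ℕ =>
      step (hi q.1) (bit q.1) (s₀ q.1) q.2.1 q.2.2 := by
    unfold step
    exact FP.c_cond h8 (FP.c_mk (FP.c_cons (FP.c_add (by fun_prop)
      (FP.c_toNat h7)) (by fun_prop)) (FP.c_mk (FP.c_cond h7 (by fun_prop) (by fun_prop))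
        (by fun_prop))) (by fun_prop)
  exact Computable.nat_rec (g := fun a => (L a, r a, 0))
    (h := fun a q => step (hi a) (bit a) (s₀ a) q.1 q.2) h6 (by fun_prop) h9

variable {hi hi' : ℕ → ℕ → Bool} {bit bit' : ℕ → Bool} {L : List ℕ} {r s₀ : ℕ}

theorem act_iff {s : ℕ} {p : List ℕ × ℕ × ℕ} : act hi s₀ s p = true ↔
    s₀ ≤ s ∧ (∀ m ∈ p.1, hi m s = false) ∧ hi p.2.1 s = true := by simp [act]

theorem run_pos {s : ℕ} (h : act hi s₀ s (run hi bit L r s₀ s) = true) :
    run hi bit L r s₀ (s + 1) = ((2 * s + (bit (run hi bit L r s₀ s).2.2).toNat) ::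
      (run hi bit L r s₀ s).1, cond (bit (run hi bit L r s₀ s).2.2) (run hi bit L r s₀ s).2.1
        (2 * s + 1), (run hi bit L r s₀ s).2.2 + 1) := by
  change step hi bit s₀ s (run hi bit L r s₀ s) = _
  rw [step, h]
  rfl

theorem run_neg {s : ℕ} (h : ¬ act hi s₀ s (run hi bit L r s₀ s) = true) :
    run hi bit L r s₀ (s + 1) = run hi bit L r s₀ s := by
  change step hi bit s₀ s (run hi bit L r s₀ s) = _
  rw [step, Bool.eq_false_iff.2 h]
  rfl

theorem run_idx (s : ℕ) : (run hi bit L r s₀ s).2.2 ≤ s ∧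
    (run hi bit L r s₀ s).2.2 ≤ (run hi bit L r s₀ (s + 1)).2.2 := by
  have h1 : ∀ s, (run hi bit L r s₀ s).2.2 ≤ (run hi bit L r s₀ (s + 1)).2.2 ∧
      (run hi bit L r s₀ (s + 1)).2.2 ≤ (run hi bit L r s₀ s).2.2 + 1 := fun s => by
    by_cases h : act hi s₀ s (run hi bit L r s₀ s) = true
    · rw [run_pos h]
      simp
    · rw [run_neg h]
      simp
  refine ⟨?_, (h1 s).1⟩
  induction s with
  | zero => exact le_rfl
  | succ s ih => exact (h1 s).2.trans (by omega)

theorem run_congr {s : ℕ} (h1 : ∀ t < s, ∀ m, hi' m t = hi m t)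
    (h2 : ∀ j < (run hi bit L r s₀ s).2.2, bit' j = bit j) :
    run hi' bit' L r s₀ s = run hi bit L r s₀ s := by
  induction s with
  | zero => rfl
  | succ s ih =>
    have h3 := ih (fun t ht => h1 t (by omega)) fun j hj => h2 j (hj.trans_le (run_idx s).2)
    have h4 : act hi' s₀ s (run hi' bit' L r s₀ s) = act hi s₀ s (run hi bit L r s₀ s) := by
      rw [h3, act, act]
      simp only [h1 s s.lt_succ_self]
    by_cases h : act hi s₀ s (run hi bit L r s₀ s) = true
    · rw [run_pos (h4.trans h), run_pos h, h3, h2 _ (by rw [run_pos h]; simp)]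
    · rw [run_neg (h4 ▸ h), run_neg h, h3]

theorem run_mono {s t : ℕ} (h : s ≤ t) {m : ℕ} (hm : m ∈ (run hi bit L r s₀ s).1) :
    m ∈ (run hi bit L r s₀ t).1 := by
  induction t, h using Nat.le_induction with
  | base => exact hm
  | succ t _ ih =>
    by_cases h : act hi s₀ t (run hi bit L r s₀ t) = true
    · rw [run_pos h]
      exact List.mem_cons_of_mem _ ih
    · rwa [run_neg h]

theorem run_mem {s m : ℕ} (hm : m ∈ (run hi bit L r s₀ s).1) :
    m ∈ (run hi bit L r s₀ (m + 1)).1 := by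
  induction s with
  | zero => exact run_mono (Nat.zero_le _) hm
  | succ s ih =>
    by_cases h : act hi s₀ s (run hi bit L r s₀ s) = true
    · have h1 := hm
      rw [run_pos h] at h1
      rcases List.mem_cons.1 h1 with h1 | h1
      · exact run_mono (by omega) hm
      · exact ih h1
    · exact ih (run_neg h ▸ hm)

theorem run_inv (h0 : ∀ y ∈ L, y < r) (h1 : r ≤ s₀) (s : ℕ) :
    (∀ y ∈ (run hi bit L r s₀ s).1, y < r ∨ y < 2 * s) ∧
    ((∃ t, hi (run hi bit L r s₀ s).2.1 t = true) ∨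
      ∀ y ∈ (run hi bit L r s₀ s).1, y < (run hi bit L r s₀ s).2.1) := by
  induction s with
  | zero => exact ⟨fun y hy => Or.inl (h0 y hy), Or.inr h0⟩
  | succ s ih =>
    by_cases h : act hi s₀ s (run hi bit L r s₀ s) = true
    · obtain ⟨h2, -, h3⟩ := act_iff.1 h
      rw [run_pos h]
      have h4 := Bool.toNat_le (bit (run hi bit L r s₀ s).2.2)
      refine ⟨fun y hy => ?_, ?_⟩
      · rcases List.mem_cons.1 hy with hy | hy
        · omega
        · have := ih.1 y hy
          omega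
      · cases h5 : bit (run hi bit L r s₀ s).2.2
        · refine Or.inr fun y hy => ?_
          rcases List.mem_cons.1 hy with hy | hy
          · simp [hy]
          · have := ih.1 y hy
            simp only [cond_false]
            omega
        · exact Or.inl ⟨s, h3⟩
    · rw [run_neg h]
      exact ⟨fun y hy => (ih.1 y hy).imp_right fun _ => by omega, ih.2⟩

theorem run_const {s t : ℕ} (h : s ≤ t)
    (h1 : ∀ u, s ≤ u → u < t → ¬ act hi s₀ u (run hi bit L r s₀ u) = true) :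
    run hi bit L r s₀ t = run hi bit L r s₀ s := by
  induction t, h using Nat.le_induction with
  | base => rfl
  | succ t h ih => rw [run_neg (h1 t h t.lt_succ_self), ih fun u a b => h1 u a (by omega)]

/-- A run that stops gives an admissible set. -/
theorem run_finite (hm : ∀ m s t, s ≤ t → hi m s = true → hi m t = true) (h0 : ∀ y ∈ L, y < r)
    (h1 : r ≤ s₀) {s : ℕ} (h : ∀ u, s ≤ u → ¬ act hi s₀ u (run hi bit L r s₀ u) = true) :
    {m | m ∈ (run hi bit L r s₀ (m + 1)).1} = {m | m ∈ (run hi bit L r s₀ s).1} ∧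
    ((∃ x ∈ (run hi bit L r s₀ s).1, ∃ t, hi x t = true) ∨
      ∃ m, (∀ y ∈ (run hi bit L r s₀ s).1, y < m) ∧ ¬ ∃ t, hi m t = true) := by
  refine ⟨Set.ext fun m => ⟨fun h2 => ?_, run_mem⟩, ?_⟩
  · have h3 := run_mono (Nat.le_add_right (m + 1) s) h2
    rwa [run_const (s := s) (by omega) fun u a _ => h u a] at h3
  · by_contra h2
    push Not at h2
    have h3 : ∃ t, hi (run hi bit L r s₀ s).2.1 t = true :=
      (run_inv h0 h1 s).2.elim id (h2.2 _)
    obtain ⟨t, ht⟩ := h3
    refine h (s + t + s₀) (by omega) (act_iff.2 ⟨by omega, ?_⟩)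
    rw [run_const (s := s) (by omega) fun u a _ => h u a]
    exact ⟨fun m h4 => by simpa using h2.1 m h4 _, hm _ _ _ (by omega) ht⟩

/-- A run that never stops decides the bits. -/
theorem run_infinite (hm : ∀ m s t, s ≤ t → hi m s = true → hi m t = true)
    (h : ∀ s, ∃ u, s ≤ u ∧ act hi s₀ u (run hi bit L r s₀ u) = true) (i : ℕ) :
    bit i = false ↔ ∃ s, (run hi bit L r s₀ s).2.2 = i ∧
      act hi s₀ s (run hi bit L r s₀ s) = true ∧ ∃ t, hi (2 * s + 1) t = true := by
  classical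
  have h1 : ∀ s, ∃ u, act hi s₀ u (run hi bit L r s₀ u) = true ∧
      run hi bit L r s₀ u = run hi bit L r s₀ s := fun s =>
    ⟨Nat.find (h s), (Nat.find_spec (h s)).2, run_const (Nat.find_spec (h s)).1
      fun u a b c => Nat.find_min (h s) b ⟨a, c⟩⟩
  have h2 : ∀ i, ∃ s, (run hi bit L r s₀ s).2.2 = i ∧ act hi s₀ s (run hi bit L r s₀ s) = true := by
    intro i
    induction i with
    | zero =>
      obtain ⟨u, a, b⟩ := h1 0
      exact ⟨u, by rw [b]; rfl, a⟩
    | succ i ih =>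
      obtain ⟨s, a, b⟩ := ih
      obtain ⟨u, c, d⟩ := h1 (s + 1)
      exact ⟨u, by rw [d, run_pos b, a], c⟩
  constructor
  · intro h3
    obtain ⟨s, a, b⟩ := h2 i
    obtain ⟨u, c, d⟩ := h1 (s + 1)
    have h4 := (act_iff.1 c).2.2
    rw [d, run_pos b, a, h3] at h4
    exact ⟨s, a, b, u, h4⟩
  · rintro ⟨s, a, b, t, c⟩
    by_contra h3
    obtain ⟨u, d, e⟩ := h (s + 1 + t)
    have h4 : 2 * s + 1 ∈ (run hi bit L r s₀ (s + 1)).1 := by
      rw [run_pos b, a, Bool.eq_true_of_not_eq_false h3]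
      simp
    have h5 := (act_iff.1 e).2.1 _ (run_mono (by omega) h4)
    rw [hm _ _ _ (by omega) c] at h5
    simp at h5

/-- One side of `A` is existential in `Z`, given the earlier bits of `A`. -/
def RC (Z A : ℕ → Bool) (o : Bool) : Prop :=
  ∃ p : List Bool → Prop, SigIn Z p ∧ ∀ i, p (seg A i) ↔ A i = o

theorem red_of_rc {Z A : ℕ → Bool} (h1 : RC Z A true) (h2 : RC Z A false) : Red A Z := by
  obtain ⟨p, hp, ep⟩ := h1
  obtain ⟨q, hq, eq⟩ := h2
  refine SigIn.congr (p := fun x : ℕ × Bool => ∃ σ : List Bool, (σ.length = x.1 + 1 ∧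
    σ.getD x.1 false = x.2) ∧ ∀ i < x.1 + 1, (σ.getD i false = true ∧ p (σ.take i)) ∨
      (σ.getD i false = false ∧ q (σ.take i)))
    (SigIn.ex (SigIn.and (SigIn.dec (by fun_prop)) (SigIn.ball (by fun_prop) (SigIn.or
      (SigIn.and (SigIn.dec (by fun_prop)) (hp.comp (f := fun y : ((ℕ × Bool) × List Bool) × ℕ =>
        y.1.2.take y.2) (by fun_prop)))
      (SigIn.and (SigIn.dec (by fun_prop)) (hq.comp (f := fun y : ((ℕ × Bool) × List Bool) × ℕ =>
        y.1.2.take y.2) (by fun_prop))))))) fun x => ⟨?_, fun h => ?_⟩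
  · rintro ⟨σ, ⟨h3, h4⟩, h5⟩
    have h6 : ∀ i < x.1 + 1, A i = σ.getD i false := by
      intro i
      induction i using Nat.strong_induction_on with
      | _ i ih =>
        intro hi
        have h7 : σ.take i = seg A i := eq_seg.2 ⟨by simp; omega, fun j hj => by
          rw [ih j hj (by omega)]
          simp [hj]⟩
        rcases h5 i hi with ⟨a, b⟩ | ⟨a, b⟩
        · rw [a, ← ep, ← h7]
          exact b
        · rw [a, ← eq, ← h7]
          exact b
    rw [h6 _ (by omega), h4]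
  · have h3 : ∀ i < x.1 + 1, (seg A (x.1 + 1)).getD i false = A i := fun i hi => by simp [seg, hi]
    refine ⟨seg A (x.1 + 1), ⟨by simp, (h3 _ (by omega)).trans h⟩, fun i hi => ?_⟩
    rw [h3 i hi, seg_take A hi.le, ep, eq]
    cases A i <;> simp

end Pool.Agent.Lib.MP_5290c5_lc.NL
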