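import Pool.Agent.Lib.MP_5290c5_lc.Spector

/-!
Homogeneous labelled trees over an arbitrary family of admissible sets.
-/

namespace Pool.Agent.Lib.MP_5290c5_lc.NL

open Finsupp

/-- The types of children. -/
inductive Ch (V : ℕ → Set ℕ → Prop) (β : ℕ → ℕ → ℕ) : Ty → Ty → Prop
  | root {n : ℕ} {F : Set ℕ} : V n F → Ch V β .top (.root n F)
  | low {n m : ℕ} {F : Set ℕ} {v : ℕ × ℕ} : WLt v (β n m, 0) → Ch V β (.root n F) (.node m v)
  | high {n m : ℕ} {F : Set ℕ} : m ∉ F → Ch V β (.root n F) (.node m (β n m, 0))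
  | node {m m' : ℕ} {v v' : ℕ × ℕ} : WLt v' v → Ch V β (.node m v) (.node m' v')

/-- Homogeneous trees. -/
structure Hom (V : ℕ → Set ℕ → Prop) (β : ℕ → ℕ → ℕ) (real : List En → Prop) (ty : List En → Ty) :
    Prop where
  nil : real []
  top : ty [] = .top
  tail : ∀ {x s}, real (x :: s) → real s
  child : ∀ {x s}, real (x :: s) → Ch V β (ty s) (ty (x :: s))
  lab : ∀ {x s}, real (x :: s) → (ty (x :: s)).lab = x.1
  inf : ∀ {s τ}, real s → Ch V β (ty s) τ → {x | real (x :: s) ∧ ty (x :: s) = τ}.Infinite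
  junk : {s | ¬ real s}.Infinite

variable {V : ℕ → Set ℕ → Prop} {β : ℕ → ℕ → ℕ} {real real' : List En → Prop} {ty ty' : List En → Ty}

theorem Hom.iso (h : Hom V β real ty) (h' : Hom V β real' ty') :
    Nonempty (TG real ≃+ TG real') := by
  classical
  have h1 : ∀ s s' τ, ∃ φ : En → En, {x | real (x :: s) ∧ ty (x :: s) = τ}.Infinite →
      {x | real' (x :: s') ∧ ty' (x :: s') = τ}.Infinite →
      Set.BijOn φ {x | real (x :: s) ∧ ty (x :: s) = τ} {x | real' (x :: s') ∧ ty' (x :: s') = τ} := by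
    intro s s' τ
    by_cases h2 : {x | real (x :: s) ∧ ty (x :: s) = τ}.Infinite ∧
      {x | real' (x :: s') ∧ ty' (x :: s') = τ}.Infinite
    · exact (exists_bijOn h2.1 h2.2).imp fun φ h _ _ => h
    · exact ⟨id, fun h3 h4 => absurd ⟨h3, h4⟩ h2⟩
  choose φ hφ using h1
  let f : List En → List En := fun s => List.rec [] (fun x s r => φ s r (ty (x :: s)) x :: r) s
  have hf : ∀ x s, f (x :: s) = φ s (f s) (ty (x :: s)) x :: f s := fun _ _ => rfl
  have h2 : ∀ s, real s → real' (f s) ∧ ty' (f s) = ty s ∧ (f s).length = s.length := by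
    intro s
    induction s with
    | nil => exact fun _ => ⟨h'.nil, h'.top.trans h.top.symm, rfl⟩
    | cons x s ih =>
      intro hs
      obtain ⟨a1, a2, a3⟩ := ih (h.tail hs)
      have := (hφ s (f s) _ (h.inf (h.tail hs) (h.child hs))
        (h'.inf a1 (a2 ▸ h.child hs))).mapsTo ⟨hs, rfl⟩
      exact ⟨this.1, this.2, by simp [hf, a3]⟩
  have hb : ∀ s τ, real s → Ch V β (ty s) τ → Set.BijOn (φ s (f s) τ)
      {x | real (x :: s) ∧ ty (x :: s) = τ} {x | real' (x :: f s) ∧ ty' (x :: f s) = τ} :=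
    fun s τ hs hτ => hφ s (f s) τ (h.inf hs hτ) (h'.inf (h2 s hs).1 ((h2 s hs).2.1 ▸ hτ))
  have h3 : Set.BijOn f {s | real s} {s | real' s} := by
    refine ⟨fun s hs => (h2 s hs).1, fun s hs t ht e => ?_, fun s' hs' => ?_⟩
    · induction s generalizing t with
      | nil => cases t with
        | nil => rfl
        | cons y t => exact absurd e (by simp [hf, f])
      | cons x s ih => cases t with
        | nil => exact absurd e (by simp [hf, f])
        | cons y t =>
          have e1 : ty (x :: s) = ty (y :: t) := by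
            rw [← (h2 _ hs).2.1, ← (h2 _ ht).2.1, e]
          rw [hf, hf, List.cons.injEq] at e
          obtain rfl := ih (h.tail hs) t (h.tail ht) e.2
          rw [← e1] at e
          rw [(hb s _ (h.tail hs) (h.child hs)).injOn ⟨hs, rfl⟩ ⟨ht, e1.symm⟩ e.1]
    · induction s' with
      | nil => exact ⟨[], h.nil, rfl⟩
      | cons x' s' ih =>
        obtain ⟨s, hs, rfl⟩ := ih (h'.tail hs')
        obtain ⟨x, hx, e⟩ := (hb s _ hs ((h2 s hs).2.1 ▸ h'.child hs')).surjOn ⟨hs', rfl⟩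
        exact ⟨x :: s, hx.1, by rw [hf, hx.2, e]⟩
  obtain ⟨g, hg⟩ := exists_bijOn h.junk h'.junk
  let e : List En ≃ List En := Equiv.subtypeCongr (p := real) (q := real') (h3.equiv f) (hg.equiv g)
  have e1 : ∀ s, real s → e s = f s := fun s hs => by
    simp [e, Equiv.subtypeCongr, Equiv.sumCompl_symm_apply_of_pos hs, Set.BijOn.equiv]
  have e2 : ∀ s, ¬ real s → e s = g s := fun s hs => by
    simp [e, Equiv.subtypeCongr, Equiv.sumCompl_symm_apply_of_neg hs, Set.BijOn.equiv]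
  have e3 : ∀ s, real s → (e s = [] ↔ s = []) := fun s hs => by
    rw [e1 s hs, ← List.length_eq_zero_iff, (h2 s hs).2.2, List.length_eq_zero_iff]
  refine grp_transport e (fun x => ?_) fun x hx => ?_
  · by_cases hx : real x.1
    · have : real' (e x.1) := e1 _ hx ▸ (h2 _ hx).1
      simp [ok0, hx, this, e3 _ hx]
    · have : ¬ real' (e x.1) := e2 _ hx ▸ hg.mapsTo hx
      simp [ok0, hx, this]
  · rcases hx with ⟨hx, h4⟩ | ⟨h4, h5⟩
    · obtain ⟨s, b, k⟩ := x
      cases s with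
      | nil => exact ⟨Or.inr (by rw [e1 _ hx]), fun hb => absurd rfl (h4 hb)⟩
      | cons x s =>
        refine ⟨Or.inr ?_, fun _ => ?_⟩
        · have h5 := h2 _ hx
          have h6 := h'.lab (hf x s ▸ h5.1)
          rw [← hf, h5.2.1, h.lab hx] at h6
          simp only [col, e1 _ hx, h5.2.2]
          rw [hf]
          exact congrArg _ h6.symm
        · simp only [e1 _ hx, List.tail_cons, e1 _ (h.tail hx), hf]
    · exact ⟨Or.inl h5, fun h => by simp_all⟩

variable {a : ℕ}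

theorem Hom.shape (h : Hom V β real ty) (hβ : ∀ n m, IsB (β n m) ∧ KLe (β n m) a) {s : List En}
    (hs : real s) : (s = [] ∨ ∃ n F, s.length = 1 ∧ ty s = .root n F ∧ V n F) ∨
      ∃ m v, 2 ≤ s.length ∧ ty s = .node m v ∧ IsB v.1 ∧ KLe v.1 a := by
  induction s with
  | nil => exact Or.inl (Or.inl rfl)
  | cons x s ih =>
    have h1 := h.child hs
    generalize ty (x :: s) = τ at h1
    rcases ih (h.tail hs) with (rfl | ⟨n, F, h2, h3, -⟩) | ⟨m, v, h2, h3, h4, h5⟩
    · rw [h.top] at h1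
      cases h1 with
      | root h1 => exact Or.inl (Or.inr ⟨_, _, rfl, rfl, h1⟩)
    · rw [h3] at h1
      cases h1 with
      | low h1 => exact Or.inr ⟨_, _, by simp [h2], rfl, h1.isB (hβ _ _).1, h1.kle.trans (hβ _ _).2⟩
      | high h1 => exact Or.inr ⟨_, _, by simp [h2], rfl, hβ _ _⟩
    · rw [h3] at h1
      cases h1 with
      | node h1 => exact Or.inr ⟨_, _, by simp; omega, rfl, h1.isB h4, h1.kle.trans h5⟩

theorem Hom.exists_child (h : Hom V β real ty) {s : List En} {τ : Ty} (hs : real s)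
    (hτ : Ch V β (ty s) τ) : ∃ x, real (x :: s) ∧ x.1 = τ.lab ∧ ty (x :: s) = τ := by
  obtain ⟨x, h1, h2⟩ := (h.inf hs hτ).nonempty
  exact ⟨x, h1, h2 ▸ (h.lab h1).symm, h2⟩

theorem Hom.pr_succ (h : Hom V β real ty) (hβ : ∀ n m, IsB (β n m) ∧ KLe (β n m) a) {c j d m : ℕ}
    (hd : 2 ≤ d) {g : List En →₀ ℚ} :
    PR real ty (c, j + 1) d m g ↔ Dv (TG real) (fp false (Nat.pair d m)) g ∧
      ∃ N g', N ≠ 0 ∧ PR real ty (c, j) (d + 1) 0 g' ∧
        Dv (TG real) (fp true (Nat.pair (d + 1) 0)) (N • g + g') := by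
  refine and_congr_right fun h1 => ?_
  simp only [PR, and_assoc]
  rw [step h1.length]
  refine forall_congr' fun s => imp_congr_right fun hs => ?_
  have h2 := (h1.supp hs).1
  have h3 := h1.length s hs
  rcases h.shape hβ h2 with (rfl | ⟨n, F, h4, -⟩) | ⟨m, v, -, h4, h5, h6⟩
  · simp at h3
    omega
  · omega
  constructor
  · rintro ⟨m', v', h7, h8⟩
    obtain ⟨x, a1, a2, a3⟩ := h.exists_child h2
      (h7 ▸ Ch.node (m' := 0) ((wlt_succ (c, j)).trans_le h8))
    exact ⟨x, a1, a2, _, _, a3, Or.inl rfl⟩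
  · rintro ⟨x, a1, -, m', v', a3, a4⟩
    have h7 := h.child a1
    rw [h4, a3] at h7
    cases h7 with
    | node h7 => exact ⟨_, _, h4, (a4.trans_lt h7).succ_le⟩

theorem Hom.pr_zero (h : Hom V β real ty) (hβ : ∀ n m, IsB (β n m) ∧ KLe (β n m) a) {b d m : ℕ}
    (hb : IsB b) (hb' : KLe b a) (hd : 2 ≤ d) {g : List En →₀ ℚ} :
    PR real ty (b, 0) d m g ↔ Dv (TG real) (fp false (Nat.pair d m)) g ∧
      ∀ c j, IsB c → KLt c b → PR real ty (c, j) d m g := by
  refine ⟨fun h1 => ⟨h1.1, fun c j hc hc' => ⟨h1.1, fun s hs => ?_⟩⟩, fun h1 => ⟨h1.1, fun s hs => ?_⟩⟩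
  · obtain ⟨m, v, h2, h3⟩ := h1.2 s hs
    exact ⟨m, v, h2, WLe.trans (Or.inr (Or.inl ⟨hc, hc'⟩)) h3⟩
  · have h3 := h1.1.length s hs
    rcases h.shape hβ (h1.1.supp hs).1 with (rfl | ⟨n, F, h4, -⟩) | ⟨m, v, -, h4, h5, h6⟩
    · simp at h3
      omega
    · omega
    refine ⟨m, v, h4, (wle_total (v := (b, 0)) hb' h6 hb h5).resolve_right fun h7 => ?_⟩
    obtain ⟨m', v', h8, h9⟩ := (h1.2 v.1 (v.2 + 1) h5 (h7.resolve_right (by simp)).2).2 s hs
    rw [h4] at h8
    cases h8
    exact WLt.irrefl ((wlt_succ v).trans_le h9)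

theorem Hom.exists_root (h : Hom V β real ty) {n : ℕ} {F : Set ℕ} (hw : V n F) :
    ∃ g, g ≠ 0 ∧ Dv (TG real) (fp false (Nat.pair 1 n)) g := by
  obtain ⟨x, h1, h2, -⟩ := h.exists_child (τ := .root n F) h.nil (h.top ▸ Ch.root hw)
  refine ⟨vec List.tail [x] false, by simp [vec], ?_⟩
  have : col [x] = Nat.pair 1 n := by simp [col, h2, Ty.lab]
  exact this ▸ dv_vec fun k => Or.inl ⟨h1, by simp⟩

theorem Hom.decode (h : Hom V β real ty) (hβ : ∀ n m, IsB (β n m) ∧ KLe (β n m) a) {n : ℕ}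
    (hU : ∀ F G, V n F → V n G → V n (F ∪ G)) {g : List En →₀ ℚ} (h0 : g ≠ 0) (hg : Dv (TG real) (fp false (Nat.pair 1 n)) g) :
    ∃ U : Set ℕ, V n U ∧ ∀ m, m ∉ U ↔ ∃ N g', N ≠ 0 ∧
      PR real ty (β n m, 0) 2 m g' ∧ Dv (TG real) (fp true (Nat.pair 2 m)) (N • g + g') := by
  have h1 : ∀ s, g s ≠ 0 → ∃ F, ty s = .root n F ∧ V n F := by
    intro s hs
    obtain ⟨h2, h3⟩ := hg.supp hs
    obtain ⟨h4, h5⟩ := Nat.pair_eq_pair.1 h3
    rcases h.shape hβ h2 with (rfl | ⟨n', F, -, h6, h7⟩) | ⟨m, v, h6, -⟩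
    · simp at h4
    · cases s with
      | nil => simp at h4
      | cons x s =>
        have h8 := h.lab h2
        rw [h6] at h8
        obtain rfl : n' = n := h8.trans h5
        exact ⟨F, h6, h7⟩
    · omega
  choose! F F1 F2 using h1
  refine ⟨⋃ s ∈ g.support, F s, ?_, fun m => ?_⟩
  · have h2 : ∀ S : Finset (List En), S.Nonempty → (∀ s ∈ S, V n (F s)) → V n (⋃ s ∈ S, F s) := by
      intro S hS
      induction hS using Finset.Nonempty.cons_induction with
      | singleton s => exact fun h => by simpa using h s (by simp)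
      | cons s S _ _ ih =>
        intro h
        have h3 : (⋃ t ∈ Finset.cons s S ‹_›, F t) = F s ∪ ⋃ t ∈ S, F t := by
          ext
          simp
        rw [h3]
        exact hU _ _ (h s (by simp)) (ih fun t ht => h t (by simp [ht]))
    exact h2 _ (support_nonempty_iff.2 h0) fun s hs => F2 s (mem_support_iff.1 hs)
  · simp only [PR, and_assoc]
    rw [step hg.length]
    simp only [Set.mem_iUnion, mem_support_iff, not_exists]
    refine forall_congr' fun s => imp_congr_right fun hs => ?_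
    constructor
    · intro h2
      obtain ⟨x, a1, a2, a3⟩ := h.exists_child (hg.supp hs).1 (F1 s hs ▸ Ch.high h2)
      exact ⟨x, a1, a2, _, _, a3, Or.inl rfl⟩
    · rintro ⟨x, a1, rfl, m', v', a3, a4⟩
      have h7 := h.child a1
      have h8 := h.lab a1
      rw [F1 s hs, a3] at h7
      rw [a3] at h8
      obtain rfl : m' = x.1 := h8
      cases h7 with
      | low h7 => exact absurd (a4.trans_lt h7) WLt.irrefl
      | high h7 => exact h7
end Pool.Agent.Lib.MP_5290c5_lc.NL
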