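import Pool.Agent.Lib.MP_5290c5_lc.NL.Path

/-!
Spectra of the second kind.
-/

namespace Pool.Agent.Lib.MP_5290c5_lc.NL

open Pool.Agent.Shared.Oracle Encodable Nat.Partrec

attribute [local irreducible] Computable

theorem two {a : ℕ} (ha : InO a) {γ : ℕ → ℕ} (hγ : ∀ j, IsB (γ j) ∧ γ j ≠ 2 ∧ KLt (γ j) a)
    (hγ' : Computable γ) : ∃ G : AddSubgroup (List En →₀ ℚ),
      ∀ X, Cop G X ↔ ∀ j, ¬ Red (H X (γ j)) (H zero (γ j)) := by
  classical
  obtain ⟨q, hq, mq, eq⟩ := (Sig.ex (P := fun (x : ℕ × ℕ × Bool) v A =>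
    v ∈ phi x.1.unpair.2 (encode x) ∧ jump A v = true)
    (Sig.and (Sig.mem_phi (by fun_prop) (by fun_prop) (by fun_prop)) (Sig.jmp (by fun_prop)))).nf
  let R : ℕ → ℕ → Bool → (ℕ → Bool) → Prop := fun n m i A =>
    ∃ k σ, σ = seg A k ∧ q (n, m, i) σ ∧ ¬ q (n, m, !i) σ
  have hR : Sig fun (x : ℕ × ℕ × Bool) A => R x.1 x.2.1 x.2.2 A := by
    unfold R
    repeat' first
      | apply Sig.and | apply Sig.ex | (apply Sig.eqseg <;> fun_prop)
      | (apply Sig.prim_not hq <;> fun_prop) | (apply Sig.prim hq <;> fun_prop)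
  let Lo : ℕ → ℕ → Prop := fun n m => R n m true (H zero (γ n.unpair.1))
  let Hi : ℕ → ℕ → Prop := fun n m => R n m false (H zero (γ n.unpair.1))
  have hd : ∀ n m, Lo n m → ¬ Hi n m := by
    rintro n m ⟨k, _, rfl, b1, b2⟩ ⟨k', _, rfl, b3, b4⟩
    rcases le_total k k' with h | h
    · exact b4 (mq _ _ _ (seg_prefix _ h) b1)
    · exact b2 (mq _ _ _ (seg_prefix _ h) b3)
  have hOn : Sig fun (x : ℕ × ℕ) A =>
      On (fun m => R x.1 m true A) (fun m => R x.1 m false A) x.2 :=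
    Sig.on (P := fun (x : ℕ × ℕ) m A => R x.1 m true A) (Q := fun (x : ℕ × ℕ) m A => R x.1 m false A)
      (hR.comp (f := fun y : (ℕ × ℕ) × ℕ => (y.1.1, y.2, true)) (by fun_prop))
      (hR.comp (f := fun y : (ℕ × ℕ) × ℕ => (y.1.1, y.2, false)) (by fun_prop)) (by fun_prop)
  obtain ⟨S, hS, -, eS⟩ := exists_sub
  have g1 : ∀ n : ℕ, InO (γ n.unpair.1) := fun n => (hγ _).2.2.left
  choose l ix l1 l2 l3 l4 using fun n : ℕ => eS (γ n.unpair.1) (hγ _).1 (g1 n) (hγ _).2.1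
  have hl : Computable fun p : ℕ × ℕ => l p.1 p.2 := by
    refine computable_of_graph ((Sig.ex (P := fun (x : (ℕ × ℕ) × ℕ) e _ =>
      S (γ x.1.1.unpair.1, 0, x.1.2, 0, x.2, e))
        ((Sig.of_re hS).comp (by fun_prop))).to_re.of_eq ?_) 0
    simp [l3]
  have hix : Computable fun p : ℕ × ℕ × ℕ × ℕ => ix p.1 p.2.1 p.2.2.1 p.2.2.2 := by
    refine computable_of_graph ((Sig.ex (P := fun (x : (ℕ × ℕ × ℕ × ℕ) × ℕ) b _ =>
      S (γ x.1.1.unpair.1, x.1.2.1, x.1.2.2.1, x.1.2.2.2, b, x.2))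
        ((Sig.of_re hS).comp (by fun_prop))).to_re.of_eq ?_) 0
    simp [l3]
  have b0 : ∀ n m, InO (l n m) := fun n m => (l1 n m).2.left
  have b1 : ∀ n m, KLe (2 ^ 2 ^ l n m) (γ n.unpair.1) := fun n m =>
    (l1 n m).1.ss_le (hγ _).1 (l1 n m).2
  have b2 : ∀ n m m', m ≤ m' → KLe (2 ^ l n m) (2 ^ l n m') := fun n m m' h => by
    induction m', h using Nat.le_induction with
    | base => exact KLe.rfl
    | succ m' _ ih => exact ih.trans ((l2 n m').succ (b0 _ _))
  have hβ : ∀ n m, IsB (l n m) ∧ KLe (l n m) a := fun n m =>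
    ⟨(l1 n m).1, ((l1 n m).2.trans (hγ _).2.2).le⟩
  let L : En → List ℕ := fun x => 0 :: Denumerable.ofNat (List ℕ) x.2.2.1.1
  have cL : Computable L := by unfold L; fun_prop
  have hP : Sig fun (x : En × ℕ) A =>
      On (fun m => R x.1.1 m true A) (fun m => R x.1.1 m false A) x.2 ∧
      (∀ i < (L x.1).length, R x.1.1 ((L x.1).getD i 0) true A) ∧
      ∀ y < x.1.2.2.2, (y = 0 ∨ par y ≠ x.2) ∨ R x.1.1 y false A :=
    Sig.and (hOn.comp (f := fun x : En × ℕ => (x.1.1, x.2)) (by fun_prop))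
      (Sig.and (Sig.ball (by fun_prop) (hR.comp (f := fun y : (En × ℕ) × ℕ =>
        (y.1.1.1, (L y.1.1).getD y.2 0, true)) (by fun_prop))) (Sig.ball (by fun_prop)
          (Sig.or (Sig.dec (by fun_prop)) (hR.comp (f := fun y : (En × ℕ) × ℕ =>
            (y.1.1.1, y.2, false)) (by fun_prop)))))
  obtain ⟨G, h1, h2⟩ := frame (V := fun n => Adm (Lo n) (Hi n)) ha hβ hl
    (fun n => exists_adm (hd n)) (fun n F G => adm_union)
    (C := fun X => ∀ j, ¬ Red (H X (γ j)) (H zero (γ j)))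
    (exists_nonlow ha (fun j => (hγ j).2.2) hγ') (fun X hX => by
    obtain ⟨T, hT, eT⟩ := hP.transfer (red_zero X)
    obtain ⟨g, hg, eg⟩ := (Sig.ex (P := fun (y : En × ℕ × ℕ) σ A => σ = seg A y.2.1 ∧
      y.2.2 = encode σ ∧ T ((y.1, y.2.1), γ y.1.1.unpair.1) A) (Sig.and
        (Sig.eqseg (by fun_prop) (by fun_prop)) (Sig.and (Sig.dec (by fun_prop))
          (hT.comp (by fun_prop))))).index
    let N : En × ℕ × ℕ → ℕ → ℕ → Prop := fun y i u =>
      H X (2 ^ l y.1.1 i) (ix y.1.1 (g y) i u) = false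
    have e1 : ∀ y : En × ℕ × ℕ, (∃ i, ∀ u, ¬ N y i u) ↔
        y.2.2 = encode (seg (H X (γ y.1.1.unpair.1)) y.2.1) ∧ On (Lo y.1.1) (Hi y.1.1) y.2.1 ∧
        (∀ w ∈ L y.1, Lo y.1.1 w) ∧ ∀ w < y.1.2.2.2, (w = 0 ∨ par w ≠ y.2.1) ∨ Hi y.1.1 w := by
      intro y
      have a1 := not_congr (l4 y.1.1 X (g y))
      rw [Bool.not_eq_false, eg] at a1
      simp only [exists_eq_left, eT _ _ (g1 _), not_forall, not_exists] at a1
      simp only [N, H_succ _ (b0 _ _), ← a1]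
      refine and_congr_right fun _ => and_congr_right fun _ => and_congr_left fun _ => ?_
      constructor
      · intro h w hw
        obtain ⟨i, hi, rfl⟩ := List.getElem_of_mem hw
        have := h i hi
        rwa [List.getD_eq_getElem _ _ hi] at this
      · intro h i hi
        rw [List.getD_eq_getElem _ _ hi]
        exact h _ (List.getElem_mem hi)
    let Va : En → ℕ → Prop := fun x z =>
      z ≠ 0 ∧ Cert (N (x, par z, (z - 1).unpair.2.unpair.1)) (z - 1).unpair.2.unpair.2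
    have v0 : ∀ x, ¬ Va x 0 := fun x h => h.1 rfl
    have v1 := fun x z (h : Va x z) => (e1 _).1 ⟨_, h.2.1⟩
    have v2 : ∀ x z z', Va x z → Va x z' → par z = par z' → z = z' := by
      intro x z z' h h' e
      have a1 := (v1 x z h).1
      have a2 := (v1 x z' h').1
      simp only [← e] at a1 a2
      have a3 := h.2
      have a4 := h'.2
      rw [a1] at a3
      rw [a2, ← e] at a4
      have a5 : (z - 1).unpair.2 = (z' - 1).unpair.2 := by
        rw [← Nat.pair_unpair (z - 1).unpair.2, ← Nat.pair_unpair (z' - 1).unpair.2, a1, a2,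
          a3.unique a4]
      have a6 : z - 1 = z' - 1 := by
        rw [← Nat.pair_unpair (z - 1), ← Nat.pair_unpair (z' - 1), a5]
        exact congrArg (fun t => Nat.pair t _) e
      have := h.1
      have := h'.1
      omega
    have hfin : ∀ x, {z | Cl (L x) (Va x) z}.Finite := by
      intro x
      by_contra h1
      have h2 := exists_on (Lo := Lo x.1) (Hi := Hi x.1) (v0 x) (fun z h => (v1 x z h).2.1) (v2 x) h1
      obtain ⟨B, hB⟩ := (List.finite_toSet (L x)).bddAbove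
      have h3 : ∀ z, On (Lo x.1) (Hi x.1) z → B < z → (z - 1).unpair.2.unpair.1 =
          encode (seg (H X (γ x.1.unpair.1)) (par z)) := fun z a1 a2 =>
        let ⟨y, a3, a4, a5⟩ := h2 z
        (v1 x z (valid_of_on (hd _) (v0 x) a1 (fun w hw => (hB hw).trans_lt a2) a3 a4 a5)).1
      refine hX x.1.unpair.1 (SigIn.congr (p := fun y : ℕ × Bool => ∃ z : ℕ × List Bool,
        On (Lo x.1) (Hi x.1) z.1 ∧ B < z.1 ∧ (z.1 - 1).unpair.2.unpair.1 = encode z.2 ∧
          z.2[y.1]? = some y.2) (SigIn.ex (SigIn.and ((hOn.comp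
            (f := fun z : (ℕ × Bool) × ℕ × List Bool => (x.1, z.2.1)) (by fun_prop)).sigIn _)
            (SigIn.dec (by fun_prop)))) fun y => ⟨?_, fun h => ?_⟩)
      · rintro ⟨z, a1, a2, a3, a4⟩
        rw [encode_injective (a3.symm.trans (h3 _ a1 a2)), seg_getElem?] at a4
        split_ifs at a4
        exact Option.some.inj a4
      · obtain ⟨z, -, a1, a2⟩ := h2 (B + y.1 + 1)
        obtain ⟨z', -, a3, a4⟩ := h2 (z + 1)
        have a5 := a3.le_par (hd _) a1 a4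
        refine ⟨(z', seg (H X (γ x.1.unpair.1)) (par z')), a3, by simp only; omega,
          h3 _ a3 (by omega), ?_⟩
        simp only
        rw [seg_getElem?, if_pos (by omega), h]
    let N' : En × ℕ × ℕ → ℕ → ℕ → ℕ → Bool → (ℕ → Bool) → Prop := fun y i u m b A =>
      ∃ v, Up (2 ^ l y.1.1 i) (ix y.1.1 (g y) i u) (2 ^ l y.1.1 m) v ∧ A v = b
    have hN : Sig fun (z : (En × ℕ × ℕ) × ℕ × ℕ × ℕ × Bool) A =>
        N' z.1 z.2.1 z.2.2.1 z.2.2.2.1 z.2.2.2.2 A :=
      Sig.ex (Sig.and (Sig.up (by fun_prop) (by fun_prop) (by fun_prop) (by fun_prop))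
        (Sig.orc (by fun_prop) (by fun_prop)))
    have eN : ∀ y i u m, i ≤ m → (N' y i u m false (H X (2 ^ l y.1.1 m)) ↔ N y i u) ∧
        (N' y i u m true (H X (2 ^ l y.1.1 m)) ↔ ¬ N y i u) := fun y i u m h => by
      simp only [N', N, up_iff (b0 _ _).succ (b2 _ _ _ h), Bool.not_eq_false, and_self]
    let NC : En × ℕ × ℕ → ℕ → ℕ → (ℕ → Bool) → Prop := fun y c m A =>
      (∃ u, N' y c.unpair.1 u m false A) ∨
      (∃ i, i < c.unpair.1 ∧ ∀ u < c.unpair.2, N' y i u m true A) ∨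
      (c.unpair.2 ≠ 0 ∧ ∀ i < c.unpair.1, ∃ u, u < c.unpair.2 - 1 ∧ N' y i u m false A)
    have hC : Sig fun (z : (En × ℕ × ℕ) × ℕ × ℕ) A => NC z.1 z.2.1 z.2.2 A :=
      Sig.or (Sig.ex (hN.comp (f := fun w : ((En × ℕ × ℕ) × ℕ × ℕ) × ℕ =>
        (w.1.1, w.1.2.1.unpair.1, w.2, w.1.2.2, false)) (by fun_prop)))
      (Sig.or (Sig.ex (Sig.and (Sig.dec (by fun_prop)) (Sig.ball (by fun_prop)
        (hN.comp (f := fun w : (((En × ℕ × ℕ) × ℕ × ℕ) × ℕ) × ℕ =>
          (w.1.1.1, w.1.2, w.2, w.1.1.2.2, true)) (by fun_prop)))))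
      (Sig.and (Sig.dec (by fun_prop)) (Sig.ball (by fun_prop) (Sig.ex (Sig.and
        (Sig.dec (by fun_prop)) (hN.comp (f := fun w : (((En × ℕ × ℕ) × ℕ × ℕ) × ℕ) × ℕ =>
          (w.1.1.1, w.1.2, w.2, w.1.1.2.2, false)) (by fun_prop)))))))
    have eC : ∀ y c m, c ≤ m → (NC y c m (H X (2 ^ l y.1.1 m)) ↔ ¬ Cert (N y) c) := by
      intro y c m h
      have a1 := (Nat.unpair_left_le c).trans h
      simp only [NC, Cert, not_and_or (a := ∀ u, _), not_or,
        (eN y _ _ m a1).1]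
      refine or_congr (by simp) (or_congr ?_ (and_congr_right fun _ => ?_))
      · simp only [not_forall, not_exists, not_and, exists_prop]
        exact exists_congr fun i => and_congr_right fun hi => forall₂_congr fun u _ =>
          (eN y i u m (by omega)).2
      · simp only [not_forall, not_exists, not_and, exists_prop, not_not]
        exact forall₂_congr fun i hi => exists_congr fun u => and_congr_right fun _ =>
          (eN y i u m (by omega)).1
    have hV : Sig fun (z : En × ℕ × ℕ) A => z.2.1 = 0 ∨ NC (z.1, par z.2.1,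
        (z.2.1 - 1).unpair.2.unpair.1) (z.2.1 - 1).unpair.2.unpair.2 z.2.2 A :=
      Sig.or (Sig.dec (by fun_prop)) (hC.comp (f := fun z : En × ℕ × ℕ => ((z.1, par z.2.1,
        (z.2.1 - 1).unpair.2.unpair.1), (z.2.1 - 1).unpair.2.unpair.2, z.2.2)) (by fun_prop))
    obtain ⟨NV, hV, eV⟩ : ∃ NV : En × ℕ × ℕ → (ℕ → Bool) → Prop, Sig NV ∧
        ∀ x w m, w ≤ m → (NV (x, w, m) (H X (2 ^ l x.1 m)) ↔ ¬ Va x w) := by
      refine ⟨_, hV, fun x w m h => ?_⟩
      have a1 := Nat.unpair_right_le (w - 1)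
      have a2 := Nat.unpair_right_le (w - 1).unpair.2
      simp only [Va, not_and_or, not_not]
      exact or_congr_right (eC (x, par w, _) _ m (by omega))
    refine build ha hβ hl (F := fun x => {z | Cl (L x) (Va x) z}) (fun x => ⟨hfin x, ?_, ?_⟩)
      (fun n F hF => ?_) (Q := fun y A => ∀ j < y.2 + 1, ¬ par^[j] y.2 ∈ L y.1 ∨
        ∃ i, i < j ∧ NV (y.1, par^[i] y.2, y.2) A) ?_ fun x m => ?_
    · exact (cl_iff (v0 x)).2 (Or.inl (by simp [L]))
    · refine or_iff_not_imp_left.2 fun h1 w h2 h3 => ?_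
      push Not at h1
      obtain ⟨c, hc⟩ := exists_cert ((e1 (x, w, encode (seg (H X (γ x.1.unpair.1)) w))).2 ⟨rfl, h3.1,
        fun w hw => h1 w ((cl_iff (v0 x)).2 (Or.inl hw)), fun w _ => h3.2 w⟩)
      have h4 : Va x (Nat.pair w (Nat.pair (encode (seg (H X (γ x.1.unpair.1)) w)) c) + 1) :=
        ⟨by omega, by simpa [par_pair] using hc⟩
      refine hd _ _ (h1 _ ((cl_iff (v0 x)).2 (Or.inr ⟨h4, by rwa [par_pair]⟩)))
        ((h3.2 _).resolve_left ?_)
      simp [par_pair]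
    · obtain ⟨y, hy⟩ := exists_list hF.1
      have a0 : ∀ k w, w ∈ L (n, 0, (y, 0), k) ↔ w ∈ F := fun k w => by
        simp only [L, List.mem_cons, hy]
        exact ⟨fun h => h.elim (fun h => h ▸ hF.2.1) id, Or.inr⟩
      obtain ⟨μ, a1⟩ : ∃ μ, ∀ x ∈ F, On (Lo n) (Hi n) x → (∀ w ∈ F, Lo n w) →
          ¬ ∀ w < μ, (w = 0 ∨ par w ≠ x) ∨ Hi n w := by
        rcases hF.2.2 with ⟨w, a1, a2⟩ | a1
        · exact ⟨0, fun _ _ _ h => absurd (h w a1) a2⟩
        · obtain ⟨B, hB⟩ := hF.1.bddAbove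
          obtain ⟨μ, hμ⟩ := exists_bound (p := fun x μ => x ∈ F → On (Lo n) (Hi n) x →
            ¬ ∀ w < μ, (w = 0 ∨ par w ≠ x) ∨ Hi n w)
            (fun x μ μ' a b c d e => b c d fun w hw => e w (hw.trans_le a)) (fun x => by
              by_cases h : x ∈ F ∧ On (Lo n) (Hi n) x
              · obtain ⟨w, hw⟩ := not_forall.1 fun h' => a1 x h.1 ⟨h.2, h'⟩
                exact ⟨w + 1, fun _ _ h' => hw (h' w w.lt_succ_self)⟩
              · exact ⟨0, fun b c => absurd ⟨b, c⟩ h⟩) (B + 1)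
          exact ⟨μ, fun x hx h _ => hμ x (Nat.lt_succ_of_le (hB hx)) hx h⟩
      refine Set.infinite_of_injective_forall_mem (f := fun k : ℕ => ((n, 0, (y, 0), μ + k) : En))
        (fun k k' e => by simpa using e) fun k => ⟨rfl, Set.ext fun z => ⟨?_, fun h =>
          (cl_iff (v0 _)).2 (Or.inl ((a0 _ _).2 h))⟩⟩
      induction z using Nat.strong_induction_on with
      | _ z ih =>
        intro h
        rcases (cl_iff (v0 _)).1 h with h | ⟨h3, h4⟩
        · exact (a0 _ _).1 h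
        · obtain ⟨-, a2, a3, a4⟩ := v1 _ _ h3
          exact absurd (fun w hw => a4 w (hw.trans_le (Nat.le_add_right _ _)))
            (a1 _ (ih _ (par_lt h3.1) h4) a2 fun w hw => a3 w ((a0 _ _).2 hw))
    · exact Sig.ball (by fun_prop) (Sig.or (Sig.dec (FP.c_decide_not (FP.c_decide_mem
        (c_iter (by fun_prop) (by fun_prop)) (by fun_prop)))) (Sig.ex (Sig.and
          (Sig.dec (by fun_prop)) (hV.comp (f := fun w : ((En × ℕ) × ℕ) × ℕ =>
            (w.1.1.1, par^[w.2] w.1.1.2, w.1.1.2)) (FP.c_mk (by fun_prop)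
              (FP.c_mk (c_iter (by fun_prop) (by fun_prop)) (by fun_prop)))))))
    · simp only [eV x _ m ((iter_par_le _ m).trans (Nat.sub_le _ _)), Set.mem_ofPred_eq, Cl,
        not_exists, not_and_or (a := _ ∈ _), not_and, not_forall, exists_prop])
  refine ⟨G, fun X => ⟨?_, h1 X⟩⟩
  rintro ⟨ν, hν⟩ j hX
  obtain ⟨U, a2, Q, a5, a6⟩ := h2 ν
  obtain ⟨r, hr, er⟩ := a5.index
  obtain ⟨g, hg, eg⟩ := ((Sig.ex (P := fun (x : ℕ × ℕ × Bool) m A =>
    Up (2 ^ 2 ^ l x.1 x.2.1) (r (x.1, x.2.1)) (γ j) m ∧ A m = !x.2.2)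
    (Sig.and (Sig.up (by fun_prop) (by fun_prop) (by fun_prop) (by fun_prop))
      (Sig.orc (by fun_prop) (by fun_prop)))).red ((hν.H (hγ j).2.2.left).trans hX)).index
  obtain ⟨e, he⟩ := exists_code hg
  have a7 := b1 (Nat.pair j e)
  have a8 := a2 (Nat.pair j e)
  simp only [Nat.unpair_pair, Lo, Hi] at a7 a8
  have a9 : ∀ m i, (∃ k, q (Nat.pair j e, m, i) (seg (H zero (γ j)) k)) ↔
      decide (m ∈ U (Nat.pair j e)) = i := fun m i => by
    rw [← eq]
    simp only [Nat.unpair_pair, he, exists_eq_left, eg]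
    rw [up_iff (hγ j).2.2.left (a7 m), H_succ _ (b0 _ _).succ]
    have := (er (Nat.pair j e, m) _).trans (a6 _ _)
    revert this
    cases i <;> cases jump (H (diagram ν) (2 ^ l (Nat.pair j e) m)) (r (Nat.pair j e, m)) <;> simp
  have a10 : ∀ m, R (Nat.pair j e) m (decide (m ∈ U (Nat.pair j e))) (H zero (γ j)) := fun m =>
    let ⟨k, hk⟩ := (a9 m _).2 rfl
    ⟨k, _, rfl, hk, fun h => by simpa using (a9 m _).1 ⟨k, h⟩⟩
  exact not_adm (fun m hm => by simpa [hm] using a10 m) (fun m hm => by simpa [hm] using a10 m) a8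

end Pool.Agent.Lib.MP_5290c5_lc.NL
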