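import Pool.Agent.Lib.MP_5290c5_lc.NL.Main

/-!
The spectrum of an infinite torsion-free abelian group is closed upwards.
-/

namespace Pool.Agent.Lib.MP_5290c5_lc.NL

open Pool.Agent.Shared.Oracle Encodable Nat.Partrec

attribute [local irreducible] Computable

theorem exists_choice {α β : Type} [Primcodable α] [Primcodable β] {X : ℕ → Bool}
    {p : α → β → Prop} (hp : SigIn X fun x : α × β => p x.1 x.2) (b₀ : β) (h : ∀ a, ∃ b, p a b) :
    ∃ f : α → β, ComputableIn {orc X} f ∧ ∀ a, p a (f a) := by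
  obtain ⟨d, hd, sd⟩ := exists_dec (b₀, 0)
  obtain ⟨q, hq, e⟩ := hp.nf
  have h1 : ComputableIn₂ {orc X} fun (a : α) u => q (a, (d u).1) (d u).2 :=
    cin_comp (g := fun y : α × ℕ => ((y.1, (d y.2).1), (d y.2).2)) hq
      (Computable.computableIn (by fun_prop))
  have hex : ∀ a, ∃ u, q (a, (d u).1) (d u).2 = true := by
    intro a
    obtain ⟨b, hb⟩ := h a
    obtain ⟨k, hk⟩ := (e (a, b)).1 hb
    obtain ⟨u, hu⟩ := sd (b, k)
    exact ⟨u, by rwa [hu]⟩
  exact ⟨fun a => (d (Nat.find (hex a))).1, cin_comp (f := fun u => (d u).1)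
    (Computable.computableIn (by fun_prop)) (cin_find h1 hex),
    fun a => (e (a, _)).2 ⟨_, Nat.find_spec (hex a)⟩⟩

theorem exists_exact {G : Type} [AddCommGroup G] (hG : ∀ g : G, g + g = 0 → g = 0)
    {X : ℕ → Bool} (h : Cop G X) : degree X ∈ DgSp G := by
  classical
  obtain ⟨ν, hν⟩ := h
  have hd : ∀ g w, diagram ν (Nat.pair g (Nat.pair g w)) = true ↔ ν (ν.symm g + ν.symm g) = w :=
    fun g w => by simp [diagram, ← Equiv.eq_symm_apply]
  have hinj : Function.Injective fun g => ν (ν.symm g + ν.symm g) := fun g g' e => by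
    have h1 := ν.injective e
    refine ν.symm.injective (sub_eq_zero.1 (hG _ ?_))
    rw [sub_add_sub_comm, h1, sub_self]
  obtain ⟨f, hf, ef⟩ := exists_choice (X := X) (p := fun (x : ℕ × List ℕ) (t : ℕ × ℕ × ℕ) =>
    ((¬ t.1 ∈ x.2 ∧ ¬ t.2.1 ∈ x.2 ∧ ¬ t.2.2 ∈ x.2) ∧ t.1 ≠ t.2.1 ∧ t.1 ≠ t.2.2 ∧ t.2.1 ≠ t.2.2) ∧
      (∀ j < t.1, j ∈ x.2) ∧ ∃ b, X x.1 = b ∧ diagram ν (Nat.pair t.2.1 (Nat.pair t.2.1 t.2.2)) = b)
    (SigIn.and (SigIn.dec (by fun_prop)) (SigIn.and (SigIn.ball (by fun_prop)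
      (SigIn.dec (by fun_prop))) (SigIn.ex (SigIn.and (SigIn.orc (Red.refl X) (by fun_prop)
        (by fun_prop)) (SigIn.orc hν (by fun_prop) (by fun_prop)))))) (0, 0, 0) (by
    rintro ⟨s, L⟩
    have h1 : ∃ u, u ∉ L := (List.finite_toSet L).infinite_compl.nonempty
    have h2 : ∀ j < Nat.find h1, j ∈ L := fun j hj => not_not.1 (Nat.find_min h1 hj)
    have h3 := List.finite_toSet (ν 0 :: Nat.find h1 :: L)
    obtain ⟨g, hg⟩ := (h3.union (h3.preimage hinj.injOn)).infinite_compl.nonempty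
    simp only [Set.mem_compl_iff, Set.mem_union, Set.mem_ofPred_eq, Set.mem_preimage,
      List.mem_cons, not_or] at hg
    cases hs : X s
    · obtain ⟨w, hw⟩ := (List.finite_toSet
        (ν (ν.symm g + ν.symm g) :: g :: Nat.find h1 :: L)).infinite_compl.nonempty
      simp only [Set.mem_compl_iff, Set.mem_ofPred_eq, List.mem_cons, not_or] at hw
      exact ⟨(Nat.find h1, g, w), ⟨⟨Nat.find_spec h1, hg.1.2.2, hw.2.2.2⟩, Ne.symm hg.1.2.1,
        Ne.symm hw.2.2.1, Ne.symm hw.2.1⟩, h2, false, rfl,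
        Bool.eq_false_iff.2 fun e => hw.1 ((hd _ _).1 e).symm⟩
    · refine ⟨(Nat.find h1, g, ν (ν.symm g + ν.symm g)), ⟨⟨Nat.find_spec h1, hg.1.2.2, hg.2.2.2⟩,
        Ne.symm hg.1.2.1, Ne.symm hg.2.2.1, fun e => hg.1.1 ?_⟩, h2, true, rfl, (hd _ _).2 rfl⟩
      have h4 : ν.symm g = ν.symm g + ν.symm g := by
        conv_lhs => rw [show g = ν (ν.symm g + ν.symm g) from e, Equiv.symm_apply_apply]
      rw [← left_eq_add.1 h4, Equiv.apply_symm_apply])
  let L : ℕ → List ℕ := fun n => Nat.rec [] (fun s l =>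
    l ++ [(f (s, l)).1, (f (s, l)).2.1, (f (s, l)).2.2]) n
  have hL : ∀ s, L (s + 1) = L s ++ [(f (s, L s)).1, (f (s, L s)).2.1, (f (s, L s)).2.2] :=
    fun _ => rfl
  have h1 : ∀ s, (L s).length = 3 * s ∧ (L s).Nodup ∧ ∀ j < s, j ∈ L s := by
    intro s
    induction s with
    | zero => exact ⟨rfl, List.nodup_nil, by simp⟩
    | succ s ih =>
      obtain ⟨⟨⟨a1, a2, a3⟩, a4, a5, a6⟩, a7, -⟩ := ef (s, L s)
      rw [hL]
      refine ⟨by simp [ih.1]; omega, List.nodup_append.2 ⟨ih.2.1, by simp [a4, a5, a6], ?_⟩,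
        fun j hj => ?_⟩
      · intro x hx y hy e
        subst e
        simp only [List.mem_cons, List.not_mem_nil, or_false] at hy
        rcases hy with rfl | rfl | rfl
        exacts [a1 hx, a2 hx, a3 hx]
      · rcases lt_trichotomy j (f (s, L s)).1 with h | h | h
        · exact List.mem_append_left _ (a7 j h)
        · simp [h]
        · exact absurd (ih.2.2 _ (by omega)) a1
  have h2 : ∀ s t, s ≤ t → L s <+: L t := by
    intro s t h
    induction t, h using Nat.le_induction with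
    | base => exact List.prefix_refl _
    | succ t _ ih => exact ih.trans (List.prefix_append _ _)
  let π : ℕ → ℕ := fun n => (L (n + 1)).getD n 0
  have h3 : ∀ s n, n < 3 * s → (L s).getD n 0 = π n := by
    have h4 : ∀ s t n, s ≤ t → n < 3 * s → (L t).getD n 0 = (L s).getD n 0 := fun s t n a b => by
      obtain ⟨τ, hτ⟩ := h2 s t a
      rw [← hτ, List.getD_append _ _ _ _ ((h1 s).1 ▸ b)]
    intro s n hn
    rw [← h4 s (s + (n + 1)) n (by omega) hn, h4 (n + 1) (s + (n + 1)) n (by omega) (by omega)]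
  have h4 : Function.Bijective π := by
    refine ⟨fun a b e => ?_, fun j => ?_⟩
    · have a1 : a < (L (a + b + 1)).length := by rw [(h1 (a + b + 1)).1]; omega
      have a2 : b < (L (a + b + 1)).length := by rw [(h1 (a + b + 1)).1]; omega
      rw [← h3 (a + b + 1) a (by omega), ← h3 (a + b + 1) b (by omega),
        List.getD_eq_getElem _ _ a1, List.getD_eq_getElem _ _ a2] at e
      exact (h1 (a + b + 1)).2.1.getElem_inj_iff.1 e
    · obtain ⟨i, hi, e⟩ := List.getElem_of_mem ((h1 (j + 1)).2.2 j j.lt_succ_self)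
      exact ⟨i, by rw [← h3 (j + 1) i ((h1 _).1 ▸ hi), List.getD_eq_getElem _ _ hi, e]⟩
  have h5 : ComputableIn {orc X} π := by
    have h6 : ComputableIn₂ {orc X} fun (_ : ℕ) (p : ℕ × List ℕ) =>
        p.2 ++ [(f p).1, (f p).2.1, (f p).2.2] :=
      cin_comp₂ (f := fun (p : ℕ × List ℕ) (t : ℕ × ℕ × ℕ) => p.2 ++ [t.1, t.2.1, t.2.2])
        (Computable.computableIn (f := fun y : (ℕ × List ℕ) × ℕ × ℕ × ℕ =>
          y.1.2 ++ [y.2.1, y.2.2.1, y.2.2.2]) (by fun_prop)) ComputableIn.snd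
        (cin_comp hf ComputableIn.snd)
    exact cin_comp₂ (f := fun (l : List ℕ) n => l.getD n 0) (Primrec.list_getD 0).computableIn₂
      (cin_nat_rec (ComputableIn.succ (O := {orc X})) (ComputableIn.const []) h6) ComputableIn.id
  let ν' : G ≃ ℕ := ν.trans (Equiv.ofBijective π h4).symm
  have h6 : ∀ m, diagram ν' m = diagram ν (Nat.pair (π m.unpair.1)
      (Nat.pair (π m.unpair.2.unpair.1) (π m.unpair.2.unpair.2))) := fun m => by
    simp [diagram, ν']
  refine ⟨ν', le_antisymm (degree_le.2 ?_) (degree_le.2 (red_iff.2 (cin_of_eq ?_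
    fun m => (h6 m).symm)))⟩
  · refine (SigIn.orc (Red.refl _) (f := fun x : ℕ × Bool => Nat.pair (3 * x.1 + 1)
      (Nat.pair (3 * x.1 + 1) (3 * x.1 + 2))) (by fun_prop) Computable.snd).congr fun x => ?_
    obtain ⟨-, -, b, a1, a2⟩ := ef (x.1, L x.1)
    have a3 : ∀ i < 3, π (3 * x.1 + i) =
        [(f (x.1, L x.1)).1, (f (x.1, L x.1)).2.1, (f (x.1, L x.1)).2.2].getD i 0 := fun i hi => by
      rw [← h3 (x.1 + 1) _ (by omega), hL, List.getD_append_right _ _ _ _ (by rw [(h1 _).1]; omega),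
        (h1 _).1, Nat.add_sub_cancel_left]
    rw [h6]
    simp only [Nat.unpair_pair, a3 1 (by omega), a3 2 (by omega)]
    exact Eq.congr_left (a2.trans a1.symm)
  · have h7 : ∀ {g : ℕ → ℕ}, Computable g → ComputableIn {orc X} fun m => π (g m) := fun hg =>
      cin_comp h5 hg.computableIn
    exact cin_comp (red_iff.1 hν) (cin_comp₂ Primrec₂.natPair.computableIn₂ (h7 (by fun_prop))
      (cin_comp₂ Primrec₂.natPair.computableIn₂ (h7 (by fun_prop)) (h7 (by fun_prop))))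

theorem cop_iff {G : Type} [AddCommGroup G] (hG : ∀ g : G, g + g = 0 → g = 0) {X : ℕ → Bool} :
    degree X ∈ DgSp G ↔ Cop G X :=
  ⟨fun ⟨ν, h⟩ => ⟨ν, degree_le.1 h.ge⟩, exists_exact hG⟩

end Pool.Agent.Lib.MP_5290c5_lc.NL
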